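import Pool.Agent.helper47.MSW.Defs

/-!
# Project msw, block C: two sides, one swap

Each row proves one of the statements `XX_stmt`: file `Pool/Agent/<seat>/MSW/XX.lean`,
`import Pool.Agent.helper47.MSW.SpecC` (and `SpecA`, `SpecB` if hypotheses of these blocks are used),
`namespace Pool.Agent.MSW`, the same open lines as here, auxiliary lemmas prefixed `XX_`. Other rows
only as hypotheses.
-/

set_option autoImplicit false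

namespace Pool.Agent.MSW

open Equiv Finset Function MeasureTheory Pool.Agent.helper48.PP
open Pool.Agent.DSW (Pr Has GP wt)
open scoped ENNReal Classical

noncomputable section

/-- Diagonal sum. -/
def S1 (H : ℕ) (F : Pt → Pt → ℝ≥0∞) : ℝ≥0∞ := ∑' p : Pt, ta H ^ (2 * nm p) * F p p

/-- Sum off the diagonal. -/
def S2 (H : ℕ) (F : Pt → Pt → ℝ≥0∞) : ℝ≥0∞ :=
  ∑' pp : Pt × Pt, if pp.1 = pp.2 then 0 else ta H ^ (nm pp.1 + nm pp.2) * F pp.1 pp.2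

/-- The total weight of the unique pairs at a distance between `H` and `2H`. -/
def SQ (H : ℕ) (p : ℝ) (X Y : List Pat) : ℝ≥0∞ :=
  ∑' w : Pt, wt H w.1 * wt H w.2 * ∑' pq : Pt × Pt,
    if pq.1 ≤ pq.2 ∧ Jb H (pq.2 - pq.1) then Pm p {ω | Qe X Y ω w pq.1 pq.2} else 0

/-- `SPT` (short; hypotheses `HLA_stmt`, `HMN_stmt`). Splitting. (1) (→) `HL X ω 0 m`, `HL B ω m m'`,
`HL Y ω m' w` (`HLA` (2)); take a minimal `p ≤ m` for `X` and a maximal `q ≥ m'` for `Y` and use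
monotonicity. (2), (3) from the definition of `Qe` (`HL B ω p q` implies `p ≤ q`). -/
def SPT_stmt : Prop :=
  (∀ (X B Y : List Pat) (ω : Om) (w : Pt), HL (X ++ B ++ Y) ω 0 w ↔
    ∃ p q, mnU X ω p ∧ mxV Y ω w q ∧ HL B ω p q) ∧
  (∀ (X B Y : List Pat) (ω : Om) (w p q : Pt), Qe X Y ω w p q →
    (HL (X ++ B ++ Y) ω 0 w ↔ HL B ω p q)) ∧
  (∀ (X Y : List Pat) (ω : Om) (w p q p' q' : Pt), Qe X Y ω w p q → Qe X Y ω w p' q' →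
    p = p' ∧ q = q')

/-- `QDP` (short to medium; hypotheses `HLA_stmt`, `HMN_stmt`). The event `Qe` does not depend on the
field in `box p q`. Let `ω, ω'` agree on `box 0 w \ box p q` and `Qe X Y ω w p q`; so `p ≤ q ≤ w`. The
boxes `box 0 p`, `box q w` are contained in `box 0 w` and disjoint from `box p q`, so `mnU X ω' p`,
`mxV Y ω' w q`. Let `mnU X ω' p'`, `mxV Y ω' w q'`, `p' ≤ q'` (so `p', q' ≤ w`). If `p' ≠ p` then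
`¬ p ≤ p'` (`HMN` (2)), so `box 0 p'` is disjoint from `box p q` (`p ≤ c`, `c < p'` would give
`p ≤ p'`) and `mnU X ω p'` by `HMN` (3); if `p' = p` this is known. The same for `q'`. So
`p' = p`, `q' = q` by `Qe X Y ω w p q`. -/
def QDP_stmt : Prop := ∀ (X Y : List Pat) (w p q : Pt),
  Dep (box 0 w \ box p q) {ω | Qe X Y ω w p q}

/-- `IN2` (short to medium; hypotheses `IND_stmt`, `HMN_stmt`). If `p ≠ p'` are comparable then both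
sides are `0` (`HMN` (2)); the same for `q, q'`. Otherwise the three events depend on
`box 0 p ∪ box 0 p'`, on `box q w ∪ box q' w` and on `box p q`, and these sets are pairwise disjoint:
a cell in `box 0 p ∩ box q' w` satisfies `p' ≤ q' ≤ c < p` (strictly in both coordinates), so
`p' ≤ p`, `p' = p`, contradiction (`p ≤ c < p`); `box 0 p' ∩ box q w`: `p ≤ q ≤ c < p'`;
`box 0 p ∩ box q w`, `box 0 p' ∩ box q' w`: `p ≤ q ≤ c < p`; `box p q ∩ box 0 p'`: `p ≤ c < p'`;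
`box p q ∩ box q' w`: `q' ≤ c < q`; the others are similar. `IND` twice. -/
def IN2_stmt : Prop := ∀ (d : ℝ) (X Y : List Pat) (w p q p' q' : Pt) (B : Set Om), 0 ≤ d → d ≤ 1 →
  p ≤ q → q ≤ w → p' ≤ q' → q' ≤ w → Dep (box p q) B →
  Pm d ({ω | mnU X ω p ∧ mnU X ω p'} ∩ {ω | mxV Y ω w q ∧ mxV Y ω w q'} ∩ B) =
    Pm d {ω | mnU X ω p ∧ mnU X ω p'} * Pm d {ω | mxV Y ω w q ∧ mxV Y ω w q'} * Pm d B

/-- `TSM` (medium; hypothesis `GEW_stmt`). Reindexing: the `(w, p, q)` with `p ≤ q ≤ w` correspond to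
the `(p, s, t)`, `s = q - p`, `t = w - q`, `w = p + s + t`. Multiply both sides by `(H+1)^2`
(nonzero, finite): `wt wt (H+1)^2 = ta^(2 nm w) = ta^(2 nm p) ta^(2 nm s) ta^(2 nm t)` and
`ta^(2 nm s) = wt wt (H+1)^2` again. `ENNReal.tsum_mul_left`, `ENNReal.tsum_comm`, `tsum_eq_tsum_of_ne_zero_bij`
or an equivalence with the subtype. -/
def TSM_stmt : Prop := ∀ (H : ℕ) (F φ G : Pt → ℝ≥0∞), 1 ≤ H →
  ∑' w : Pt, wt H w.1 * wt H w.2 * (∑' pq : Pt × Pt, if pq.1 ≤ pq.2 ∧ pq.2 ≤ w then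
    F pq.1 * φ (pq.2 - pq.1) * G (w - pq.2) else 0) =
  (∑' p : Pt, ta H ^ (2 * nm p) * F p) * (∑' s : Pt, wt H s.1 * wt H s.2 * φ s) *
    (∑' t : Pt, ta H ^ (2 * nm t) * G t)

/-- `TSE` (medium to long; hypothesis `GEW_stmt`). The same for pairs, as an upper bound. A term on
the left is given by `w`, `(p, q)`, `(p', q')`; put `s = q - p`, `t = w - q`, `s' = q' - p'`,
`t' = w - q'`: `w = p + s + t = p' + s' + t'`, so
`wt wt = ((H+1)^2)⁻¹ ta^(nm w + nm w) ≤ ((H+1)^2)⁻¹ ta^(nm p + nm p') ta^(nm t + nm t') ta^(nm s)`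
(`ta ≤ 1`). The map `(w, p, q, p', q') ↦ (s, p, p', t, t')` is injective, and
`(p, q) ≠ (p', q')` implies `p ≠ p'` or `t ≠ t'`. So the left side is at most
`((H+1)^2)⁻¹ ∑_(s, p, p', t, t' : p ≠ p' or t ≠ t') ta^(nm s) φ(s) ta^(nm p + nm p') F(p,p')
ta^(nm t + nm t') G(t,t')`; split into the three cases. -/
def TSE_stmt : Prop := ∀ (H : ℕ) (F G : Pt → Pt → ℝ≥0∞) (φ : Pt → ℝ≥0∞), 1 ≤ H →
  ∑' w : Pt, wt H w.1 * wt H w.2 * (∑' r : (Pt × Pt) × (Pt × Pt),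
    if (r.1.1 ≤ r.1.2 ∧ r.1.2 ≤ w) ∧ (r.2.1 ≤ r.2.2 ∧ r.2.2 ≤ w) ∧ r.1 ≠ r.2 then
      F r.1.1 r.2.1 * G (w - r.1.2) (w - r.2.2) * φ (r.1.2 - r.1.1) else 0) ≤
  (((H : ℝ≥0∞) + 1) ^ 2)⁻¹ * (∑' s : Pt, ta H ^ nm s * φ s) *
    (S2 H F * S1 H G + S1 H F * S2 H G + S2 H F * S2 H G)

/-- `QSM` (medium; hypotheses `MUM_stmt`, `IND_stmt`, `HLA_stmt`, `SPT_stmt`, `QDP_stmt`). Sums over
the events `Qe X Y ω w p q`, which are measurable (`QDP`, `MUM`) and pairwise disjoint (`SPT` (3)):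
(1) `SPT` (2) and countable additivity (`tsum_measure_le_measure_univ`-type lemmas,
`measure_iUnion`); (2) `IND` (`box 0 w \ box p q` and `box p q` are disjoint); (3) decompose `A`; the
union of the `Qe` with `J p q` is the complement of the event in the first term (`measure_inter_add_diff`,
`measure_iUnion`); (4) total mass one. -/
def QSM_stmt : Prop := ∀ (d : ℝ) (X Y : List Pat) (w : Pt), 0 ≤ d → d ≤ 1 →
  (∀ B : List Pat, ∑' pq : Pt × Pt, Pm d ({ω | Qe X Y ω w pq.1 pq.2} ∩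
    {ω | HL B ω pq.1 pq.2}) ≤ Pm d {ω | HL (X ++ B ++ Y) ω 0 w}) ∧
  (∀ (B : List Pat) (p q : Pt), Pm d ({ω | Qe X Y ω w p q} ∩ {ω | HL B ω p q}) =
    Pm d {ω | Qe X Y ω w p q} * Pm d {ω | HL B ω p q}) ∧
  (∀ (J : Pt → Pt → Prop) (F : Finset Pt) (A : Set Om), Dep F A →
    Pm d A = Pm d (A ∩ {ω | ∀ p q, J p q → ¬ Qe X Y ω w p q}) +
      ∑' pq : Pt × Pt, if J pq.1 pq.2 then Pm d (A ∩ {ω | Qe X Y ω w pq.1 pq.2}) else 0) ∧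
  (∑' pq : Pt × Pt, Pm d {ω | Qe X Y ω w pq.1 pq.2} ≤ 1)

/-- `QLB` (short to medium; hypotheses `IN2_stmt`, `HMN_stmt`). `{mnU X p} ∩ {mxV Y w q}` is contained
in the union of `{Qe p q}` and of the events `{mnU X p ∧ mnU X p'} ∩ {mxV Y w q ∧ mxV Y w q'}`
with `p' ≤ q' ≤ w`, `(p', q') ≠ (p, q)`. Union bound, and `IN2` (with `B = univ`) for all the
probabilities (the first one with `p' = p`, `q' = q`). -/
def QLB_stmt : Prop := ∀ (d : ℝ) (X Y : List Pat) (w p q : Pt), 0 ≤ d → d ≤ 1 → p ≤ q → q ≤ w →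
  Pm d {ω | mnU X ω p} * Pm d {ω | mxV Y ω w q} ≤ Pm d {ω | Qe X Y ω w p q} +
    ∑' r : Pt × Pt, if (r.1 ≤ r.2 ∧ r.2 ≤ w) ∧ (p, q) ≠ r then
      Pm d {ω | mnU X ω p ∧ mnU X ω r.1} * Pm d {ω | mxV Y ω w q ∧ mxV Y ω w r.2} else 0

/-- `SQS` (medium; hypotheses `QLB_stmt`, `TSM_stmt`, `TSE_stmt`, `RFB_stmt`, `GEW_stmt`,
`PTD_stmt`). Let `φ s = 1` if `Jb H s`, else `0`. Multiply `QLB` by `wt wt φ (q - p)` and sum over
`w` and `p ≤ q ≤ w` (for `q` not `≤ w` the event `Qe` is empty, but this is not needed: on the right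
one has more terms). By `RFB`, `Pm {mxV Y w q} = Pm {mnU Y.reverse (w - q)}`, and the left side is by
`TSM` equal to `A1 X * (∑' s, wt wt φ s) * A1 Y.reverse ≥ (1/324) A1 X * A1 Y.reverse` (`GEW`). On the
right: `SQ` plus an error, which by `TSE` is at most
`((H+1)^2)⁻¹ (∑' s, ta^(nm s) φ s) ER ≤ ER`: at most `H^2` points `s`, each term `≤ 1`
(`S1 = A1`, `S2 = A2` for `F p p' = Pm {mnU X p ∧ mnU X p'}`). By `PTD`,
`ER ≤ (2 K θ + K^2 θ^2) A1 X * A1 Y.reverse ≤ 3 K θ A1 X * A1 Y.reverse ≤ (1/648) ..` if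
`θ₀` is small; all terms are finite. -/
def SQS_stmt : Prop := ∀ M : ℕ, 1 ≤ M → ∃ θ₀ : ℝ, 0 < θ₀ ∧ θ₀ ≤ 1 ∧
  ∀ (θ : ℝ) (H : ℕ) (X Y : List Pat), 0 < θ → θ ≤ θ₀ → M ≤ H → Adm M X → Adm M Y →
  ENNReal.ofReal (1 / 648) * (A1 H (den θ H) X * A1 H (den θ H) Y.reverse) ≤
    SQ H (den θ H) X Y

/-- `ZPR` (medium; hypotheses `IND_stmt`, `HLA_stmt`, `HMN_stmt`, `SPT_stmt`, `TRL_stmt`, `RFB_stmt`,
`TSM_stmt`). `{HL (X ++ B ++ Y) ω 0 w}` is contained in the union over `p ≤ q ≤ w` of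
`{mnU X p} ∩ {HL B p q} ∩ {mxV Y w q}` (`SPT`), which depend on the disjoint boxes `box 0 p`, `box p q`,
`box q w`; so the probability is `Pm {mnU X p} Pm {HL B 0 (q - p)} Pm {mnU Y.reverse (w - q)}`
(`TRL`, `RFB`). Sum: `TSM`. -/
def ZPR_stmt : Prop := ∀ (θ : ℝ) (H : ℕ) (X B Y : List Pat), 0 ≤ θ → θ ≤ 1 → 1 ≤ H →
  (∀ b ∈ Y, RC b) → Z H (den θ H) (X ++ B ++ Y) ≤
    A1 H (den θ H) X * Z H (den θ H) B * A1 H (den θ H) Y.reverse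

/-- `ZBU` (short to medium; hypotheses `FLT_stmt`, `CNT_stmt`, `GEM_stmt`, `GEW_stmt`). (1) from
`FLT`; (2) `Pm {HP (flat B).2 ω 0 w} ≤ p^n C(w_1,n) C(w_2,n)`, `n = tl B`, and
`∑' wt H j C(j,n) = H^n` (`GEM`): `p^n H^(2n) = θ^n`; (3) probabilities are at most one and the
weights sum to one. -/
def ZBU_stmt : Prop :=
  (∀ (H : ℕ) (p : ℝ) (X : List Pat), Z H p X = Zp H p (flat X).2) ∧
  (∀ (θ : ℝ) (H : ℕ) (B : List Pat), 0 ≤ θ → θ ≤ 1 → 1 ≤ H →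
    Z H (den θ H) B ≤ ENNReal.ofReal (θ ^ tl B)) ∧
  (∀ (H : ℕ) (p : ℝ) (X : List Pat), 1 ≤ H → Z H p X ≤ 1)

/-- `ZLO` (short to medium; hypotheses `SQS_stmt`, `QSM_stmt`, `HLA_stmt`, `TRL_stmt`, `FLT_stmt`,
`LOB_stmt`). By `QSM` (1), (2), `Z (X ++ B ++ Y) ≥ ∑_w wt wt ∑_(p,q) Pm {Qe p q} Pm {HL B p q}`; keep the
`(p, q)` with `p ≤ q`, `Jb H (q - p)`: there `Pm {HL B p q} = Pm {HL B 0 (q - p)} ≥
Pm {HL B 0 (H,H)} ≥ (θ/(8 n^2))^n`, `n = tl B` (`TRL`, monotonicity, `FLT`, `LOB`). `SQS`. -/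
def ZLO_stmt : Prop := ∀ M : ℕ, 1 ≤ M → ∃ θ₀ : ℝ, 0 < θ₀ ∧ θ₀ ≤ 1 ∧
  ∀ (θ : ℝ) (H : ℕ) (X B Y : List Pat), 0 < θ → θ ≤ θ₀ → M ≤ H → 1 ≤ tl B → tl B ≤ H →
  Adm M X → Adm M Y →
  ENNReal.ofReal (1 / 648 * (θ / (8 * (tl B : ℝ) ^ 2)) ^ tl B) *
    (A1 H (den θ H) X * A1 H (den θ H) Y.reverse) ≤ Z H (den θ H) (X ++ B ++ Y)

/-- `ZLB` (short; hypotheses `ZLO_stmt`, `PTD_stmt`, `HMN_stmt`). `X = X' ++ [b]`
(`List.eq_nil_or_concat`), `ZLO` with `B = [b]`, `Y = []`, `A1 [] = 1` (only `z = 0` is minimal), and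
`A1 X' ≥ (c θ)^(tl X')` (`PTD`). `c₀ = min c (1/(8 M^2))`, `c₁ = 1/648`. -/
def ZLB_stmt : Prop := ∀ M : ℕ, 1 ≤ M → ∃ c₀ c₁ θ₀ : ℝ, 0 < c₀ ∧ 0 < c₁ ∧ 0 < θ₀ ∧ θ₀ ≤ 1 ∧
  ∀ (θ : ℝ) (H : ℕ) (X : List Pat), 0 < θ → θ ≤ θ₀ → M ≤ H → Adm M X → X ≠ [] →
  ENNReal.ofReal (c₁ * (c₀ * θ) ^ tl X) ≤ Z H (den θ H) X

/-- `BX2` (short to medium; hypotheses `HLA_stmt` (7), `TRN_stmt`, `TRL_stmt`). In a box the
patterns `12` and `21` have the same probability: `TRN` with `f c = (s.1 - 1 - c.1, c.2)`, injective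
on `box 0 s`. Then `TRL` for `box p q` (`q = p + (q - p)`); if `¬ p ≤ q` both are `0`. -/
def BX2_stmt : Prop := ∀ (d : ℝ) (p q : Pt), 0 ≤ d → d ≤ 1 →
  Pm d {ω | HL [sw true] ω p q} = Pm d {ω | HL [sw false] ω p q}

/-- `SWU` (medium-long; hypotheses `HLA_stmt`, `HMN_stmt`, `SPT_stmt`, `QSM_stmt`, `IN2_stmt`,
`BX2_stmt`, `TRL_stmt`, `RFB_stmt`, `TSE_stmt`, `CNT_stmt`, `GEM_stmt`). Fix `w`. If
`HL (X ++ [12] ++ Y) ω 0 w` then `mnU X p`, `mxV Y w q`, `HL [12] p q` for some `p ≤ q ≤ w`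
(`SPT` (1)); either `Qe p q`, or there is another pair `(p', q')`. So
`Pm {HL (X ++ [12] ++ Y)} ≤ ∑_(p,q) Pm ({Qe p q} ∩ {HL [12] p q}) + ∑_(r : (p,q) ≠ (p',q'))
Pm ({mnU X p ∧ mnU X p'} ∩ {mxV Y w q ∧ mxV Y w q'} ∩ {HL [12] p q})`. First sum: by `QSM` (2),
`BX2`, `QSM` (2) it is the same for `[21]`, so at most `Pm {HL (X ++ [21] ++ Y) ω 0 w}` by `QSM` (1).
Second sum: `IN2`, `RFB`, `TRL` (`Pm {HL [12] p q} = Pm {HL [12] 0 (q - p)} =: φ (q - p)`); by `TSE` the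
weighted sum over `w` is at most `((H+1)^2)⁻¹ (∑' s, ta^(nm s) φ s) ER`, and
`φ s ≤ p^2 C(s_1,2) C(s_2,2)` (`CNT`), `∑' ta^j C(j,2) ≤ (2(H+1))^3` (`GEM`), so the factor is at most
`p^2 2^6 (H+1)^4 ≤ 64 (θ/H^2)^2 (2H)^4 = 1024 θ^2`. -/
def SWU_stmt : Prop := ∀ (θ : ℝ) (H : ℕ) (X Y : List Pat), 0 ≤ θ → θ ≤ 1 → 1 ≤ H →
  (∀ b ∈ Y, RC b) → Z H (den θ H) (X ++ [sw true] ++ Y) ≤
    Z H (den θ H) (X ++ [sw false] ++ Y) + ENNReal.ofReal (1024 * θ ^ 2) * ER H (den θ H) X Y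

/-- `RTU` (short to medium; hypotheses `SWU_stmt`, `INU_stmt`, `ZLO_stmt`, `RCZ_stmt`, `PTD_stmt`).
`X ++ Blk s ε ++ Y = X' ++ [sw ε] ++ Y'` with `X' = X ++ Iz s`, `Y' = Iz s ++ Y`,
`Y'.reverse = Y.reverse ++ Iz s`. By `INU` `A2 X' ≤ K θ^(s+1) A1 X'`, `A2 Y'.reverse ≤
K θ^(s+1) A1 Y'.reverse`, so `ER X' Y' ≤ 3 K θ^(s+1) A1 X' A1 Y'.reverse` if `K θ₀ ≤ 1`, and by `ZLO`
(`B = [sw false]`, `tl = 2`) `A1 X' A1 Y'.reverse ≤ 648 (32/θ)^2 Z (X' ++ [sw false] ++ Y')`. So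
`C = 1024 * 3 K * 648 * 1024`. -/
def RTU_stmt : Prop := ∀ s M : ℕ, 2 ≤ M → (s + 1) ^ 2 ≤ M → ∃ C θ₀ : ℝ, 0 < C ∧ 0 < θ₀ ∧ θ₀ ≤ 1 ∧
  ∀ (θ : ℝ) (H : ℕ) (X Y : List Pat), 0 < θ → θ ≤ θ₀ → M ≤ H → Adm M X → Adm M Y →
  Z H (den θ H) (X ++ Blk s true ++ Y) ≤
    ENNReal.ofReal (1 + C * θ ^ (s + 1)) * Z H (den θ H) (X ++ Blk s false ++ Y)

/-! ## The lower bound for a swap -/

/-- `GST` (short to medium; hypotheses `HLA_stmt`, `HMN_stmt`). Changes inside the middle region do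
not change the minimal and maximal points. Claim: for `z ≤ w`, `HL X ω 0 z ↔ HL X ω' 0 z`. (→) take a
minimal `p₀ ≤ z` (for `ω`); no cell of `box 0 p₀` is in `inG` (it would be `≥ p'` for a minimal
`p'`, so `p' ≤ p₀`, `p' = p₀`, contradiction); so `ω, ω'` agree on `box 0 p₀`, `HL X ω' 0 p₀`.
(←) take a minimal `p₀ ≤ z` for `ω'`. If some cell of `box 0 p₀` is in `inG X Y ω w`, it is `≥ p'` with
`mnU X ω p'`, so `p' ≤ p₀ ≤ z` and `HL X ω 0 z`. Otherwise `ω, ω'` agree on `box 0 p₀`, so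
`HL X ω 0 p₀`. The same for `HL Y ω q w` (any `q`). The rest follows (minimality of `z ≤ w` involves
only `z' ≤ z`; in `inG` one has `p ≤ c < q ≤ w`). -/
def GST_stmt : Prop := ∀ (X Y : List Pat) (ω ω' : Om) (w : Pt),
  (∀ c ∈ box 0 w, ¬ inG X Y ω w c → ω c = ω' c) →
  (∀ z, z ≤ w → (mnU X ω z ↔ mnU X ω' z)) ∧ (∀ q, mxV Y ω w q ↔ mxV Y ω' w q) ∧
  (∀ c, inG X Y ω w c ↔ inG X Y ω' w c)

/-- Decreasing sets. -/
def DcS (S : Finset Pt) : Prop := GP S ∧ ∀ u ∈ S, ∀ v ∈ S, u.1 < v.1 → v.2 < u.2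

/-- `DCS` (short to medium). Decreasing sets: (1) enumerate the first coordinates and the second
coordinates in increasing order (`Finset.orderEmbOfFin` of the images, which have `|S|` elements);
(2) by (1) `S` is determined by the two projections (`|S|` is the number of elements of a
projection). -/
def DCS_stmt : Prop :=
  (∀ S : Finset Pt, DcS S → ∃ x y : Fin S.card → ℕ, StrictMono x ∧ StrictMono y ∧
    S = Finset.univ.image fun i => (x i, y (Fin.rev i))) ∧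
  (∀ S S' : Finset Pt, DcS S → DcS S' → S.image Prod.fst = S'.image Prod.fst →
    S.image Prod.snd = S'.image Prod.snd → S = S')

/-- `DEC` (short). Exchange. Among the `π` with all the cells `(x i, y (π i))` in the union of the
boxes (for example `π = rev`) take one with `∑ i * π i` maximal. If for a box `b` and `i < j`,
`π j < π i`, both cells are in the box `b`, then also `(x i, y (π j))` and `(x j, y (π i))` are in `b`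
(the box is a product), and `π' = π * swap i j` has a larger sum:
`(j - i)(π i - π j) > 0`. -/
def DEC_stmt : Prop := ∀ (n : ℕ) (x y : Fin n → ℕ) (Bx : Set (Pt × Pt)), StrictMono x →
  StrictMono y → (∀ i, ∃ b ∈ Bx, (x i, y (Fin.rev i)) ∈ box b.1 b.2) →
  ∃ π : Perm (Fin n), (∀ i, ∃ b ∈ Bx, (x i, y (π i)) ∈ box b.1 b.2) ∧
    ∀ b ∈ Bx, ∀ i j, i < j → π j < π i →
      ¬ ((x i, y (π i)) ∈ box b.1 b.2 ∧ (x j, y (π j)) ∈ box b.1 b.2)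

/-- `GPP` (long; hypotheses `MUM_stmt`, `HLA_stmt`, `HMN_stmt`, `SPT_stmt`, `GST_stmt`, `DCS_stmt`,
`DEC_stmt`). All events depend on `D = box 0 w`; by `MUM` write them as sums over `S ⊆ D`,
`ω = ind S`. Let `G(S)` be the set of the cells `c` with `inG X Y (ind S) w c` (a subset of `D`),
`E₁(S)`, `E₀(S)` the events with `12`, `21`: by `SPT`, `E₁(S)` iff some box `box p q` with `mnU X p`,
`mxV Y w q` contains `u, v ∈ S` with `u.1 < v.1`, `u.2 < v.2`; `E₀(S)`: with `u.1 < v.1`,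
`v.2 < u.2`. Let `g(S) = GP (S ∩ G(S))`. Construct an injective map `Φ` from
`{S : ¬ E₁ S, g S, S ∈ 𝒬}` to `{S : ¬ E₀ S, g S, S ∈ 𝒬}` with `|Φ S| = |S|`: `S ∩ G(S)` is a
decreasing set (two cells `u, v` of `G` with `u.1 < v.1`, `u.2 < v.2` are in one box: `p ≤ u` for the
box of `u`, `v < q'` for the box of `v`, so both are in `box p q'`); by `DCS` (1) it is
`{(x i, y (rev i))}`; `DEC` with the set of the boxes `(p, q)`, `mnU X p`, `mxV Y w q`, gives `π`, and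
`Φ S = (S \ G) ∪ {(x i, y (π i))}`. By `GST` the minimal and maximal points and `G` are the same for
`Φ S`; `E₀ (Φ S)` is false by `DEC`; `(Φ S) ∩ G` has no two cells in a line; `Φ S ∈ 𝒬` by the
hypothesis on `𝒬`. Injective: `G(S) = G(Φ S)`, `S \ G = Φ S \ G`, and `S ∩ G` is the decreasing set with
the same projections as `Φ S ∩ G` (`DCS` (2)). So `Pr(¬E₁, g, 𝒬) ≤ Pr(¬E₀, g, 𝒬)`, hence
`Pr(E₀, g, 𝒬) ≤ Pr(E₁, g, 𝒬)`, and `¬ g S` implies `¬ GP S`. -/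
def GPP_stmt : Prop := ∀ (d : ℝ) (X Y : List Pat) (w : Pt) (𝒬 : Set Om), 0 ≤ d → d ≤ 1 →
  Dep (box 0 w) 𝒬 →
  (∀ ω ω' : Om, (∀ c ∈ box 0 w, ¬ inG X Y ω w c → ω c = ω' c) → ω ∈ 𝒬 → ω' ∈ 𝒬) →
  Pm d ({ω | HL (X ++ [sw false] ++ Y) ω 0 w} ∩ 𝒬) ≤
    Pm d ({ω | HL (X ++ [sw true] ++ Y) ω 0 w} ∩ 𝒬) + Pm d {ω | ¬ GP (tr ω 0 w)}

/-- `QIN` (short; hypotheses `HLA_stmt`, `HMN_stmt`, `GST_stmt`). A cell in the middle region for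
`X ++ I`, `I' ++ Y` is in the middle region for `X`, `Y`: if `mnU (X ++ I) ω p'` then `HL X ω 0 m` for
some `m ≤ p'`, so there is `p ≤ p'` with `mnU X ω p`; the same for `q`. So `GST` for `X, Y` applies:
`Qe X Y ω w p q ↔ Qe X Y ω' w p q` (all points involved are `≤ w`). -/
def QIN_stmt : Prop := ∀ (X I I' Y : List Pat) (ω ω' : Om) (w : Pt),
  (∀ c ∈ box 0 w, ¬ inG (X ++ I) (I' ++ Y) ω w c → ω c = ω' c) →
  ∀ p q, Qe X Y ω w p q ↔ Qe X Y ω' w p q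

/-- `STR` (short; hypothesis `ASC_stmt`). `ASC` (2) with `X = Y = Iz s`, `b = sw ε`:
`avCount n (flat (Blk s ε)).2 = avCount n (dsum (dsum x (sw ε).2) x)`, `x = (flat (Iz s)).2`.
(1) `Pool.Agent.helper48.PP.swap_dominance_gen` (a permutation contains itself); (2)
`Pool.Agent.helper48.CG.cor` (import `Pool.Agent.helper48.CG.Main`), `(flat (Iz s)).1` is positive. -/
def STR_stmt : Prop := ∀ s : ℕ,
  (∀ n, avCount n (flat (Blk s true)).2 ≤ avCount n (flat (Blk s false)).2) ∧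
  ∃ n, avCount n (flat (Blk s true)).2 < avCount n (flat (Blk s false)).2

/-- `GAP` (medium; hypotheses `MUM_stmt`, `FLT_stmt`, `STR_stmt`, `Pool.Agent.DSW.GPC_stmt`). The
gain in a box. Write `P_ε` for the probability of `HL (Blk s ε) ω 0 w`, by `FLT`, `MUM`
`Pr (range w.1 ×ˢ range w.2) p (Has (flat (Blk s ε)).2)`. By `GPC` the probability of `GP S ∧ Has`
is `∑_m p^m (1-p)^(w_1 w_2 - m) C(w_1,m) C(w_2,m) N_m`, `N_m = m! - avCount m`. By `STR`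
`N_m` is not smaller for `true` than for `false`, and larger by at least one for `m = n`. So
`P_false ≤ P_true - p^n (1-p)^(w_1 w_2 - n) C(w_1,n) C(w_2,n) + Pr(¬ GP)`. Here
`(1-p)^(w_1 w_2) ≥ 1 - w_1 w_2 p ≥ 1 - 4θ ≥ 1/2`, `C(w_i, n) ≥ C(H,n) ≥ (H+1-n)^n / n! ≥ (H/2)^n / n!`
(`Nat.pow_le_choose`-type bound; `2n ≤ H`), `p = θ/H^2`: the gain is at least
`c θ^n`, `c = 1/(2 * 4^n * (n!)^2)`. -/
def GAP_stmt : Prop := ∀ s : ℕ, ∃ (n : ℕ) (c : ℝ), 0 < c ∧ c ≤ 1 ∧ ∀ (θ : ℝ) (H : ℕ) (w : Pt),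
  0 < θ → θ ≤ 1 / 8 → 1 ≤ H → 2 * n ≤ H → Jb H w →
  Pm (den θ H) {ω | HL (Blk s false) ω 0 w} + ENNReal.ofReal (c * θ ^ n) ≤
    Pm (den θ H) {ω | HL (Blk s true) ω 0 w} + Pm (den θ H) {ω | ¬ GP (tr ω 0 w)}

/-- `SWL` (medium; hypotheses `HLA_stmt`, `QDP_stmt`, `QSM_stmt`, `SPT_stmt`, `TRL_stmt`, `GPP_stmt`,
`QIN_stmt`, `GAP_stmt`, `GPE_stmt`, `GEW_stmt`, `SQS_stmt`). `n, c` from `GAP`. Fix `w`; let
`E_ε = {HL (X ++ Blk s ε ++ Y) ω 0 w}`, `J p q : p ≤ q ∧ Jb H (q - p)`,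
`𝒬 = {ω | ∀ p q, J p q → ¬ Qe X Y ω w p q}`. `X ++ Blk s ε ++ Y = (X ++ Iz s) ++ [sw ε] ++ (Iz s ++ Y)`,
so `GPP` (for `X ++ Iz s`, `Iz s ++ Y`; `𝒬` is admissible by `QIN`, `QDP`) gives
`Pm (E_false ∩ 𝒬) ≤ Pm (E_true ∩ 𝒬) + Pm {¬ GP (tr ω 0 w)}`. For `J p q`: `SPT` (2), `QSM` (2), `TRL`:
`Pm (E_ε ∩ Qe p q) = Pm (Qe p q) Pm {HL (Blk s ε) 0 (q - p)}`, so by `GAP` and `GPE` (2)
`Pm (E_false ∩ Qe) + c θ^n Pm Qe ≤ Pm (E_true ∩ Qe) + (16/H) Pm Qe`. Add (`QSM` (3) for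
`E_false` and `E_true`, `QSM` (4)): `Pm E_false + c θ^n ∑_J Pm Qe ≤ Pm E_true + Pm {¬ GP} + 16/H`. Average
over `w`: `GPE` (1), `GEW` (5), `SQS`. Constant `c/648`. -/
def SWL_stmt : Prop := ∀ s : ℕ, ∃ n : ℕ, ∀ M : ℕ, 2 ≤ M → (s + 1) ^ 2 ≤ M → ∃ c θ₀ : ℝ, 0 < c ∧
  c ≤ 1 ∧ 0 < θ₀ ∧ θ₀ ≤ 1 ∧ ∀ (θ : ℝ) (H : ℕ) (X Y : List Pat), 0 < θ → θ ≤ θ₀ → M ≤ H →
  2 * n ≤ H → Adm M X → Adm M Y →
  Z H (den θ H) (X ++ Blk s false ++ Y) +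
    ENNReal.ofReal (c * θ ^ n) * (A1 H (den θ H) X * A1 H (den θ H) Y.reverse) ≤
  Z H (den θ H) (X ++ Blk s true ++ Y) + ENNReal.ofReal (22 / H)

/-- `RTL` (medium; hypotheses `SWL_stmt`, `ZPR_stmt`, `ZBU_stmt`, `PTD_stmt`). `e = n`, `c, θ₀` from
`SWL` (and `PTD`), final constant `c/2`. Let `a = A1 X * A1 Y.reverse`; by `PTD`
`a ≥ (c' θ)^(2k)` if `tl X, tl Y ≤ k` (`c' θ ≤ 1`; `tl Y.reverse = tl Y`), so for `H ≥ H₀(k, θ)`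
`22/H ≤ (c/2) θ^n a`. By `ZPR`, `ZBU` (2), `Z (X ++ Blk s false ++ Y) ≤ a`. So
`Z_false + c θ^n a ≤ Z_true + (c/2) θ^n a`, hence `Z_false + (c/2) θ^n Z_false ≤ Z_false + (c/2) θ^n a
≤ Z_true` (everything is finite). -/
def RTL_stmt : Prop := ∀ s : ℕ, ∃ e : ℕ, ∀ M : ℕ, 2 ≤ M → (s + 1) ^ 2 ≤ M → ∃ c θ₀ : ℝ, 0 < c ∧
  c ≤ 1 ∧ 0 < θ₀ ∧ θ₀ ≤ 1 ∧ ∀ θ : ℝ, 0 < θ → θ ≤ θ₀ → ∀ k : ℕ, ∃ H₀ : ℕ, ∀ H : ℕ, H₀ ≤ H →
  ∀ X Y : List Pat, Adm M X → Adm M Y → tl X ≤ k → tl Y ≤ k →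
  ENNReal.ofReal (1 + c * θ ^ e) * Z H (den θ H) (X ++ Blk s false ++ Y) ≤
    Z H (den θ H) (X ++ Blk s true ++ Y)

end

end Pool.Agent.MSW
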