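import Pool.Agent.helper47.MSW.Defs

/-!
# Project msw, block D: windows, many swaps, parameters, assembly

Each row proves one of the statements `XX_stmt`: file `Pool/Agent/<seat>/MSW/XX.lean`,
`import Pool.Agent.helper47.MSW.SpecD` (and `SpecA`, `SpecB`, `SpecC` if hypotheses of these blocks are
used), `namespace Pool.Agent.MSW`, the same open lines as here, auxiliary lemmas prefixed `XX_`.
Other rows only as hypotheses.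
-/

set_option autoImplicit false

namespace Pool.Agent.MSW

open Equiv Finset Function MeasureTheory Pool.Agent.helper48.PP
open Pool.Agent.DSW (Pr Has GP wt)
open scoped ENNReal Classical

noncomputable section

/-! ## Windows -/

/-- `WLO` (medium; hypothesis `MUM_stmt`). Few ones. Let `D = box 0 w`, `N = |D| = w.1 * w.2`. By `MUM`
the probability is a sum over `S ⊆ D`. If `HP σ (ind S) 0 w` then `S` contains the set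
`T = {(x j, y (σ j))}` of `k` cells for some `k`-subsets `I` of `range w.1`, `J` of `range w.2`
(ranges of `x`, `y`): union bound, `C(w.1,k) C(w.2,k)` pairs. For a fixed `T ⊆ D`, `|T| = k`:
`Pr(T ⊆ S, |S| ≤ n) = ∑_(m=k..n) C(N-k, m-k) p^m (1-p)^(N-m)` and
`C(N-k, m-k) N^k ≤ C(N, m) m^k` (`C(N-k,m-k) N(N-1)..(N-k+1) = C(N,m) m(m-1)..(m-k+1)` and
`(m-i) N ≤ m (N-i)`; induction on `k`), so it is at most `(n/N)^k`. Total: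
`C(w.1,k) C(w.2,k) (n/N)^k ≤ (w.1^k/k!) (w.2^k/k!) (n/N)^k = n^k/(k!)^2`. (`N = 0`: trivial.) -/
def WLO_stmt : Prop := ∀ (k : ℕ) (σ : Perm (Fin k)) (w : Pt) (n : ℕ) (p : ℝ), 0 ≤ p → p ≤ 1 →
  Pm p {ω | HP σ ω 0 w ∧ (tr ω 0 w).card ≤ n} ≤
    ENNReal.ofReal ((n : ℝ) ^ k / ((k.factorial : ℕ) : ℝ) ^ 2)

/-- `WH1` (short; hypothesis `ONE_stmt`). Many ones. Union bound over the `m`-subsets `T` of
`box 0 w` (`N = w.1 w.2` cells): `C(N, m) p^m ≤ (N p)^m / m!`. -/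
def WH1_stmt : Prop := ∀ (w : Pt) (m : ℕ) (p : ℝ), 0 ≤ p → p ≤ 1 →
  Pm p {ω | m ≤ (tr ω 0 w).card} ≤
    ENNReal.ofReal (((w.1 : ℝ) * (w.2 : ℝ) * p) ^ m / ((m.factorial : ℕ) : ℝ))

/-- `WH2` (short to medium; hypotheses `CNT_stmt`, `GEM_stmt`, `GEW_stmt`). Large boxes. For
`nm w > 2 B k H`: `wt wt = ((H+1)^2)⁻¹ ta^(2 nm w) ≤ ((H+1)^2)⁻¹ ta^(nm w) ta^(2 B k H)` and
`ta^(2H B k) ≤ 2^(-B k)` (`GEW` (3)). With `CNT` and `GEM` (2) the sum is at most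
`((H+1)^2)⁻¹ 2^(-B k) p^k (2(H+1))^(2(k+1)) = 4 * 2^(-B k) p^k (2(H+1))^(2k)
≤ 4 * 2^(-B k) (θ/H^2)^k (4H)^(2k)`. -/
def WH2_stmt : Prop := ∀ (k B H : ℕ) (σ : Perm (Fin k)) (θ : ℝ), 1 ≤ H → 0 ≤ θ → θ ≤ 1 →
  (∑' w : Pt, if 2 * B * k * H < nm w then
    wt H w.1 * wt H w.2 * Pm (den θ H) {ω | HP σ ω 0 w} else 0) ≤
  ENNReal.ofReal (4 * (16 * θ / 2 ^ B) ^ k)

/-- `WIN` (medium-long; hypotheses `WLO_stmt`, `WH1_stmt`, `WH2_stmt`, `GEW_stmt`). The window.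
Choose `B` with `16/2^B ≤ c₀/2` and `4 B^2 ≥ 1`, `4 B^2 ≥ 2 e^2 / c₀`; `K = 4 B^2`. Let
`n₋ = ⌊θ k^2/K⌋`, `m₊ = ⌊K θ k^2⌋ + 1`. If `HP σ ω 0 w` and the number of ones is not in the window
then it is `≤ n₋` or `≥ m₊`. For `nm w ≤ 2 B k H`: `w.1 w.2 ≤ (nm w)^2/4 ≤ B^2 k^2 H^2`, so
`w.1 w.2 p ≤ B^2 k^2 θ = K θ k^2/4 ≤ m₊/4` and by `WH1` the probability of `≥ m₊` ones is at most
`(m₊/4)^m₊ / m₊! ≤ (e/4)^m₊ ≤ (7/10)^(K θ k^2)` (`m! ≥ (m/e)^m`; `e < 2.8`; real power). By `WLO` the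
probability of `≤ n₋` ones and a copy is at most `(θ k^2/K)^k/(k!)^2 ≤ (θ e^2/K)^k ≤ (c₀ θ/2)^k`. The
boxes with `nm w > 2 B k H` contribute at most `4 (c₀ θ/2)^k` (`WH2`). So
`Zp ≤ ZW + 5 (c₀ θ/2)^k + (7/10)^(K θ k^2)`, and for `k ≥ k₀(θ)`:
`5/2^k ≤ c₁/4` and `(7/10)^(K θ k^2) ≤ (c₁/4) (c₀ θ)^k`; so `Zp ≤ ZW + Zp/2`, and `Zp ≤ 1` is finite. -/
def WIN_stmt : Prop := ∀ c₀ c₁ : ℝ, 0 < c₀ → 0 < c₁ → ∃ K : ℝ, 1 ≤ K ∧ ∀ θ : ℝ, 0 < θ → θ ≤ 1 →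
  ∃ k₀ : ℕ, ∀ k : ℕ, k₀ ≤ k → ∀ (σ : Perm (Fin k)) (H : ℕ), 1 ≤ H →
  ENNReal.ofReal (c₁ * (c₀ * θ) ^ k) ≤ Zp H (den θ H) σ →
  Zp H (den θ H) σ ≤ 2 * ZW H (den θ H) σ (Win K θ k)

/-- `LNW` (medium; hypotheses `MUM_stmt`, `GPE_stmt`, `GEW_stmt`, `Pool.Agent.DSW.GPC_stmt`).
Comparison in a window. Fix `w`. By `MUM` the probabilities are
`Pr (range w.1 ×ˢ range w.2) p (...)` (`box 0 w`, `tr (ind S) 0 w = S`, `HP σ (ind S) 0 w ↔ Has σ S` for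
`S ⊆ box 0 w`). The probability of `GP S`, `Has σ S`, `|S| ∈ W` is
`∑_(n ∈ W) p^n (1-p)^(w_1 w_2 - n) C(w_1,n) C(w_2,n) (n! - avCount n σ)` (`GPC`), which is at most the same
for `τ`. So `Pm {HP σ, |tr| ∈ W} ≤ Pm {HP τ, |tr| ∈ W} + Pm {¬ GP}`; average, `GPE` (1). Compare
`Pool.Agent.helper23.DSW.LNK`. -/
def LNW_stmt : Prop := ∀ (k l : ℕ) (σ : Perm (Fin k)) (τ : Perm (Fin l)) (W : Set ℕ),
  (∀ n ∈ W, avCount n τ ≤ avCount n σ) → ∀ (H : ℕ) (θ : ℝ), 1 ≤ H → 0 ≤ θ → θ ≤ 1 →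
  ZW H (den θ H) σ W ≤ ZW H (den θ H) τ W + ENNReal.ofReal (6 / H)

/-- `DIF` (short to medium; hypotheses `WIN_stmt`, `LNW_stmt`, `GEW_stmt`). `K` from `WIN`, and `k₀`
from `WIN`. Suppose `avCount n τ ≤ avCount n σ` for all `n` in the window. Then for all `H ≥ H₀`, `1`:
`Zp σ ≤ 2 ZW σ ≤ 2 (ZW τ + 6/H) ≤ 2 Zp τ + 12/H ≤ Zp σ / 2 + 12/H`, so
`c₁ (c₀ θ)^k ≤ Zp σ ≤ 24/H` (`Zp σ ≤ 1` is finite), a contradiction for large `H`. -/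
def DIF_stmt : Prop := ∀ c₀ c₁ : ℝ, 0 < c₀ → 0 < c₁ → ∃ K : ℝ, 1 ≤ K ∧ ∀ θ : ℝ, 0 < θ → θ ≤ 1 →
  ∃ k₀ : ℕ, ∀ k : ℕ, k₀ ≤ k → ∀ (l : ℕ) (σ : Perm (Fin k)) (τ : Perm (Fin l)),
  (∃ H₀ : ℕ, ∀ H : ℕ, H₀ ≤ H → ENNReal.ofReal (c₁ * (c₀ * θ) ^ k) ≤ Zp H (den θ H) σ ∧
    4 * Zp H (den θ H) τ ≤ Zp H (den θ H) σ) →
  ∃ n ∈ Win K θ k, avCount n σ < avCount n τ

/-! ## Many swaps -/

/-- All blocks exchanged. -/
def flp (L : List (ℕ × Bool)) : List (ℕ × Bool) := L.map fun a => (a.1, !a.2)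

/-- The blocks of type `i` (parameter `s i`), `m i` times, `true` for even `i`. -/
def LT (T : ℕ) (m s : ℕ → ℕ) : List (ℕ × Bool) :=
  (List.range T).flatMap fun i => List.replicate (m i) (s i, decide (i % 2 = 0))

/-- `HYB` (short to medium; hypothesis `RCZ_stmt`). Change the blocks one after the other. More
generally with a prefix: if `Adm M X` and `tl X + tl (Lst L) ≤ k` then
`f (X ++ Lst (flp L)) * ∏ (if a.2 then 1 + lo a.1 else 1) ≤ f (X ++ Lst L) * ∏ (if a.2 then 1 else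
1 + hi a.1)`. Induction on `L` (for all `X`), `L = a :: L'`, `R = Lst (flp L')`
(`tl (Lst (flp L)) = tl (Lst L)`, both are admissible by `RCZ`): first change the first block,
`f (X ++ Blk a.1 (!a.2) ++ R)` to `f (X ++ Blk a.1 a.2 ++ R)` with the hypothesis (`Y = R`), then apply
the induction hypothesis with the prefix `X ++ Blk a.1 a.2`. All factors are nonnegative. -/
def HYB_stmt : Prop := ∀ (M k : ℕ) (S : Set ℕ) (f : List Pat → ℝ) (lo hi : ℕ → ℝ), 2 ≤ M →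
  (∀ s ∈ S, (s + 1) ^ 2 ≤ M) → (∀ X, 0 ≤ f X) → (∀ s, 0 ≤ lo s ∧ 0 ≤ hi s) →
  (∀ s ∈ S, ∀ X Y : List Pat, Adm M X → Adm M Y → tl X ≤ k → tl Y ≤ k →
    (1 + lo s) * f (X ++ Blk s false ++ Y) ≤ f (X ++ Blk s true ++ Y) ∧
    f (X ++ Blk s true ++ Y) ≤ (1 + hi s) * f (X ++ Blk s false ++ Y)) →
  ∀ L : List (ℕ × Bool), (∀ a ∈ L, a.1 ∈ S) → tl (Lst L) ≤ k →
  f (Lst (flp L)) * (L.map fun a => if a.2 then 1 + lo a.1 else 1).prod ≤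
    f (Lst L) * (L.map fun a => if a.2 then 1 else 1 + hi a.1).prod

/-- `RAT` (medium; hypotheses `HYB_stmt`, `RCZ_stmt`). Let `L = LT T m s`. The products in `HYB` are
`∏_(i < T, i even) (1 + lo (s i))^(m i)` and `∏_(i < T, i odd) (1 + hi (s i))^(m i)`. For even `j`:
`f (flp) (1 + lo (s j))^(m j) ≤ f (flp) ∏_(even) ≤ f (L) ∏_(odd) (1 + hi (s i))^(m i) ≤
f (L) ∏_(i ≠ j) (1 + hi (s i))^(m i)`; with the hypothesis, divide by the last product (positive). For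
odd `j` the same with `flp L` in place of `L` (`flp (flp L) = L`, `tl (Lst (flp L)) = tl (Lst L)`). -/
def RAT_stmt : Prop := ∀ (T M k j : ℕ) (m s : ℕ → ℕ) (f : List Pat → ℝ) (lo hi : ℕ → ℝ), 2 ≤ M →
  (∀ i < T, (s i + 1) ^ 2 ≤ M) → (∀ X, 0 ≤ f X) → (∀ v, 0 ≤ lo v ∧ 0 ≤ hi v) →
  (∀ i < T, ∀ X Y : List Pat, Adm M X → Adm M Y → tl X ≤ k → tl Y ≤ k →
    (1 + lo (s i)) * f (X ++ Blk (s i) false ++ Y) ≤ f (X ++ Blk (s i) true ++ Y) ∧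
    f (X ++ Blk (s i) true ++ Y) ≤ (1 + hi (s i)) * f (X ++ Blk (s i) false ++ Y)) →
  tl (Lst (LT T m s)) ≤ k → j < T →
  4 * ∏ i ∈ (Finset.range T).erase j, (1 + hi (s i)) ^ m i ≤ (1 + lo (s j)) ^ m j →
  (Even j → 4 * f (Lst (flp (LT T m s))) ≤ f (Lst (LT T m s))) ∧
  (¬ Even j → 4 * f (Lst (LT T m s)) ≤ f (Lst (flp (LT T m s))))

/-- `LTF` (short; hypothesis `RCZ_stmt`). Facts on `LT`: the lists are admissible, both have the same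
length, which is at least `m 0` if `0 < T` (each block has at least one atom), and they are not
empty if `m 0` is positive. -/
def LTF_stmt : Prop := ∀ (T M : ℕ) (m s : ℕ → ℕ), 2 ≤ M → (∀ i < T, (s i + 1) ^ 2 ≤ M) → 0 < T →
  Adm M (Lst (LT T m s)) ∧ Adm M (Lst (flp (LT T m s))) ∧
  tl (Lst (flp (LT T m s))) = tl (Lst (LT T m s)) ∧ m 0 ≤ tl (Lst (LT T m s)) ∧
  (1 ≤ m 0 → Lst (LT T m s) ≠ [] ∧ Lst (flp (LT T m s)) ≠ [])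

/-! ## Parameters -/

/-- `PAR` (short to medium). The parameters, from the last type to the first. Induction on `T` (for
all sequences). Step: apply the induction hypothesis to the sequences shifted by one and get
`θ' , μ'` for the indices `1, .., T`. Choose `μ_0 > 0` so small that the strict inequalities for
`j ≥ 1` survive the additional term `μ_0 C_0 θ_j^(s_0+1) ≤ μ_0 C_0`. Then choose `θ_0 > 0` with
`θ_0 ≤ θ₀`, `θ_0 ≤ κ θ_1` and `θ_0 ∑_(i ≥ 1) μ_i C_i < μ_0 c_0/4`: as `s_i ≥ e_0` for `i ≥ 1`,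
`∑_(i ≥ 1) μ_i C_i θ_0^(s_i+1) ≤ θ_0^(e_0+1) ∑ μ_i C_i < (1/4) μ_0 c_0 θ_0^(e_0)`. -/
def PAR_stmt : Prop := ∀ (T : ℕ) (s e : ℕ → ℕ) (c C : ℕ → ℝ) (κ θ₀ : ℝ),
  (∀ i j, j < i → e j ≤ s i) → (∀ i, 0 < c i ∧ 0 < C i) → 0 < κ → κ ≤ 1 → 0 < θ₀ → θ₀ ≤ 1 →
  ∃ θ μ : ℕ → ℝ, (∀ i < T, 0 < θ i ∧ θ i ≤ θ₀) ∧ (∀ i < T, 0 < μ i) ∧
  (∀ i, i + 1 < T → θ i ≤ κ * θ (i + 1)) ∧
  ∀ j < T, ∑ i ∈ (Finset.range T).erase j, μ i * (C i * θ j ^ (s i + 1)) <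
    1 / 4 * (μ j * (c j * θ j ^ e j))

/-- `MUL` (short to medium). Multiplicities. `(1 + h)^m ≤ exp(h m)`, `⌈μ N⌉ ≤ μ N + 1`, so the product
is at most `exp(N ∑ μ_i h_i + ∑ h_i)`; `(1 + lo)^m ≥ exp(lo m/2)` (`exp(x/2) ≤ 1 + x` for
`0 ≤ x ≤ 1`), `m = ⌈μ_j N⌉ ≥ μ_j N`. The claim holds if `log 4 + ∑ h_i + N ∑ μ_i h_i ≤ N μ_j lo / 2`, and
`∑ μ_i h_i ≤ μ_j lo/4`. -/
def MUL_stmt : Prop := ∀ (T j : ℕ) (μ hi : ℕ → ℝ) (lo : ℝ), j < T → (∀ i < T, 0 < μ i ∧ 0 ≤ hi i) →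
  0 < lo → lo ≤ 1 →
  ∑ i ∈ (Finset.range T).erase j, μ i * hi i < 1 / 4 * (μ j * lo) →
  ∃ N₀ : ℕ, ∀ N : ℕ, N₀ ≤ N →
    4 * ∏ i ∈ (Finset.range T).erase j, (1 + hi i) ^ ⌈μ i * (N : ℝ)⌉₊ ≤
      (1 + lo) ^ ⌈μ j * (N : ℝ)⌉₊

/-! ## Assembly -/

/-- `FIN` (long; hypotheses `RTL_stmt`, `RTU_stmt`, `ZLB_stmt`, `ZBU_stmt`, `FLT_stmt`, `DIF_stmt`,
`RAT_stmt`, `LTF_stmt`, `PAR_stmt`, `MUL_stmt`). `T = 0`: trivial. Let `e` be the function of `RTL`;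
define `s 0 = 0`, `s (i+1) = s i + e (s i) + 1` (strictly increasing, so `e (s j) ≤ s i` for `j < i`).
`M = (s T + 2)^2`. Let `c(v), θ(v)` be the constants of `RTL` and `C(v), θ'(v)` those of `RTU` for the
parameters `v = s i`, `i < T`, and this `M` (choice; define them as `1` for the other `v`), `c₀, c₁, θ''`
those of `ZLB`, `θ₀` the minimum of all thresholds, `K` from `DIF` for `c₀, c₁`; `κ = 1/(2 K^2)`.
`PAR` for `s i`, `e (s i)`, `c (s i)`, `C (s i)` gives `θ_j, μ_j`. For every `j < T`: `k₀(θ_j)` from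
`DIF`, `N₀(j)` from `MUL` with `lo = c (s j) θ_j^(e (s j)) ≤ 1`, `hi i = C (s i) θ_j^(s i + 1)`. Choose `N`
large (all `N₀`, `μ_0 N ≥ k₀(θ_j)`, `μ_0 N ≥ 1`), `m i = ⌈μ_i N⌉`, `A = Lst (LT T m s)`,
`B = Lst (flp (LT T m s))`, `k = tl A = tl B ≥ m 0 ≥ k₀` (`LTF`). For a given `j` and all large `H`
(`RTL` for this `θ_j` and `k`, all `i < T`; `H ≥ M`): `f X = (Z H (den θ_j H) X).toReal` satisfies
the hypotheses of `RAT` with `lo v = c(v) θ_j^(e v)`, `hi v = C(v) θ_j^(v+1)` (all `Z ≤ 1` by `ZBU` (3)),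
so (in `ℝ≥0∞`) `4 Z(B) ≤ Z(A)` for `j` even, `4 Z(A) ≤ Z(B)` for `j` odd; `Z = Zp` of the flat
pattern (`ZBU` (1)); `(flat A).1 = tl A` (`FLT` (2)). `ZLB` gives the lower bound in `DIF`. So `DIF`
gives `n_j ∈ Win K θ_j k` with the claimed inequality. Since `θ_j ≤ κ θ_(j+1)`,
`n_j ≤ K θ_j k^2 ≤ θ_(j+1) k^2/(2K) < θ_(j+1) k^2/K ≤ n_(j+1)` (`k ≥ 1`). -/
def FIN_stmt : Prop := ∀ T : ℕ, ∃ (A B : List Pat) (n : ℕ → ℕ), tl A = tl B ∧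
  (∀ i, i + 1 < T → n i < n (i + 1)) ∧
  ∀ j < T, (Even j → avCount (n j) (flat A).2 < avCount (n j) (flat B).2) ∧
    (¬ Even j → avCount (n j) (flat B).2 < avCount (n j) (flat A).2)

/-- `TOP` (short; hypotheses `FIN_stmt`, `FLT_stmt`). `(flat A).1 = tl A = tl B = (flat B).1`; replace
the second pattern by its cast (generalize `flat B`, `subst`). `n : Fin T → ℕ` is strictly
increasing. -/
def TOP_stmt : Prop := ∀ T : ℕ, ∃ (k : ℕ) (σ τ : Perm (Fin k)) (n : Fin T → ℕ), StrictMono n ∧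
  ∀ j : Fin T, (Even (j : ℕ) → avCount (n j) σ < avCount (n j) τ) ∧
    (¬ Even (j : ℕ) → avCount (n j) τ < avCount (n j) σ)

end

end Pool.Agent.MSW
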