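import Pool.Agent.helper47.MSW.Defs

/-!
# Project msw, block B: pair bounds, recursion, insulation

Each row proves one of the statements `XX_stmt`: file `Pool/Agent/<seat>/MSW/XX.lean`,
`import Pool.Agent.helper47.MSW.SpecB` (and `SpecA` if a hypothesis of block A is used),
`namespace Pool.Agent.MSW`, the same open lines as here, auxiliary lemmas prefixed `XX_`. Other rows
only as hypotheses. In this block `m = w + 1` is the size of the atom.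
-/

set_option autoImplicit false

namespace Pool.Agent.MSW

open Equiv Finset Function MeasureTheory Pool.Agent.helper48.PP
open Pool.Agent.DSW (Pr Has GP wt)
open scoped ENNReal Classical

noncomputable section

/-- `PRG` (short to medium). Product rule (`Pool.Agent.helper32.DSW.PRD` is the case `α = ℕ`; the same
proof: induction on the finite type, `Fin (n+1) → α` is `α × (Fin n → α)`, `ENNReal.tsum_prod`,
`ENNReal.tsum_mul_left`). -/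
def PRG_stmt : Prop := ∀ (ι α : Type) [Fintype ι] (g : ι → α → ℝ≥0∞),
  ∑' x : ι → α, ∏ i, g i (x i) = ∏ i, ∑' j, g i j

/-- `SBD` (medium; hypotheses `PRG_stmt`, `GEW_stmt`). Sum over the copies in `[a, ∞)`. Let
`m = w + 1`, `υ = up m H`, so `ta H ≤ υ^m`, `∑' υ^j = 2m(H+1)`. For a copy `C = (x, y) ≥ a`, with
`N = nm (tp C) - nm a`, one has `ta^(nm (tp C)) = ta^(nm a) ta^N ≤ ta^(nm a) υ^(m N)
≤ ta^(nm a) ∏_j υ^(x j - a.1) υ^(y j - a.2)` as `(x j - a.1) + (y j - a.2) ≤ N` for each of the `m`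
indices `j` (`x j < (tp C).1`, `y j < (tp C).2`; `υ ≤ 1`). The sum over all `x, y : Fin m → ℕ` with
`x j ≥ a.1`, `y j ≥ a.2` is by `PRG` a product of `2m` geometric series: `(2m(H+1))^(2m)`. Finally
`(θ/H^2)^m (2m(H+1))^(2m) ≤ (θ/H^2)^m (4 m H)^(2m) = (16 m^2 θ)^m`. -/
def SBD_stmt : Prop := ∀ (w H : ℕ) (θ : ℝ) (a : Pt), 1 ≤ H → 0 ≤ θ →
  (∑' C : Cp (w + 1), if isC C ∧ geP a C then
    ENNReal.ofReal (den θ H) ^ (w + 1) * ta H ^ nm (tp C) else 0) ≤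
  ta H ^ nm a * ENNReal.ofReal ((16 * ((w : ℝ) + 1) ^ 2 * θ) ^ (w + 1))

/-- `PBD` (medium-long; hypotheses `PRG_stmt`, `GEW_stmt`, `SBD_stmt`). Pair bound. Let
`m = w + 1`, `t = 16 m^2 θ ≤ 1`, `p = θ/H^2`, `υ = up m H`. Fix `C` and let `N = cls τ C`
(`|N| = m`). For a copy `C' = (x', y') ≥ a'` put `c_l = (x' l, y' (τ l))` (`l : Fin m`); these are `m`
different cells, and `i = |cls τ C' \ N|` is the number of the `l` with `c_l ∉ N`; `j ≤ i`, and the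
union has `m + i` cells. Let `h(c) = 1` if `c ∈ N`, `h(c) = (p/t) υ^(nm c - nm a')` if `c ∉ N`,
`a' ≤ c`, and `h(c) = 0` otherwise. Then
`p^i ta^(nm (tp C')) ≤ t^j ta^(nm a') ∏_l h(c_l)`: `p^i = t^i (p/t)^i ≤ t^j (p/t)^i`, and
`ta^(nm (tp C') - nm a') ≤ υ^(m (nm (tp C') - nm a')) ≤ ∏_(l : c_l ∉ N) υ^(nm c_l - nm a')` (at most `m`
factors, `c_l ≤ tp C'`, `υ ≤ 1`). `C' ↦ (c_l)_l` is injective, so by `PRG` the sum over `C'` is at
most `t^j ta^(nm a') (∑'_c h(c))^m ≤ t^j ta^(nm a') (m + (p/t)(2m(H+1))^2)^m`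
`≤ t^j ta^(nm a') (m+1)^m`, since `(p/t) (2m(H+1))^2 ≤ (θ/H^2) 16 m^2 H^2 / (16 m^2 θ) = 1`. Multiply
by `p^m ta^(nm (tp C))` and sum over `C`: `SBD`. -/
def PBD_stmt : Prop := ∀ (w j H : ℕ) (θ : ℝ) (τ : Perm (Fin (w + 1))) (a a' : Pt), 1 ≤ H →
  0 < θ → 16 * ((w : ℝ) + 1) ^ 2 * θ ≤ 1 →
  (∑' CC : Cp (w + 1) × Cp (w + 1),
    if (isC CC.1 ∧ geP a CC.1) ∧ (isC CC.2 ∧ geP a' CC.2) ∧
      j ≤ (cls τ CC.2 \ cls τ CC.1).card then
    ENNReal.ofReal (den θ H) ^ (cls τ CC.1 ∪ cls τ CC.2).card *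
      ta H ^ (nm (tp CC.1) + nm (tp CC.2)) else 0) ≤
  ta H ^ (nm a + nm a') *
    ENNReal.ofReal (((w : ℝ) + 2) ^ (w + 1) * (16 * ((w : ℝ) + 1) ^ 2 * θ) ^ (w + 1 + j))

/-- `IN1` (short; hypothesis `CPA_stmt`). If `cls b.2 C' \ cls b.2 C` is empty then
`cls b.2 C' ⊆ cls b.2 C`, so the tops are equal by `CPA` (7). -/
def IN1_stmt : Prop := ∀ b : Pat, InsP b 1

/-- `RCZ` (short). `zr s`, `sw true`, `sw false` are invariant under reverse-complement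
(`finProdFinEquiv` commutes with `Fin.rev`: `rev (i, t) = (rev i, rev t)`), `zrp s` at position
`(i, t)` has the value `(rev i, t)`. Sizes: `(s+1)^2` and `2`. So `Iz s`, `Blk s ε` are admissible. -/
def RCZ_stmt : Prop :=
  (∀ (s : ℕ) (i t : Fin (s + 1)), zrp s (finProdFinEquiv (i, t)) = finProdFinEquiv (Fin.rev i, t)) ∧
  (∀ s M : ℕ, (s + 1) ^ 2 ≤ M → Adm M (Iz s)) ∧
  (∀ (s M : ℕ) (ε : Bool), (s + 1) ^ 2 ≤ M → 2 ≤ M → Adm M (Blk s ε)) ∧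
  (∀ (M : ℕ) (ε : Bool), 2 ≤ M → Adm M [sw ε])

/-- `INS` (medium-long; hypotheses `RCZ_stmt` (1), `CPA_stmt`). The insulator. Let `r = s + 1`; write
`(i, t)` for `finProdFinEquiv (i, t) : Fin (r * r)`, so the cell of `C = (x, y)` number `(i, t)` is
`(x (i,t), y (rev i, t))`; layer `i` of `C` is `L_i = {those cells, t < r}`, `r` cells, increasing;
for `i < i'` all cells of `L_i` are to the left of and above all cells of `L_i'`. The same for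
`C' = (x', y')`, layers `L'_i`. Suppose fewer than `r` cells of `C'` are not in `C`. (i) Every layer
`L'_i` has `r` cells, so at least one of them, `u_i`, is in `C`. (ii) Two cells of `L'_i` that are in
`C` are in the same layer of `C` (cells of different layers are decreasing); let `φ i` be the layer
of `C` that contains `u_i`; for `i < i'` the cell `u_i` is to the left and above `u_i'`, so
`φ i < φ i'`; so `φ` is strictly increasing on `Fin r`, `φ = id`. (iii) Some layer `L'_j` has no cell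
outside of `C` (otherwise at least `r` new cells); so `L'_j ⊆ L_j`, hence `L'_j = L_j` and
`x (j,t) = x' (j,t)`, `y (rev j, t) = y' (rev j, t)` for all `t`. (iv) Hybrids: `D` = layers `i ≤ j`
from `C`, `i > j` from `C'` (`x_D (i,t) = x (i,t)` if `i ≤ j`, else `x' (i,t)`; `y_D (rev i, t)` in
the same way) is a copy in `[a, ∞)` with all cells `true`: for `i ≤ j < i'`,
`x (i,t) ≤ x (j, last) = x' (j, last) < x' (i',t')`, and similarly for the rows. Its top is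
`((tp C').1, (tp C).2)` (last column from layer `s`, largest row from layer `0`; if `j = s` then
`(tp C').1 = (tp C).1`). `D'` = layers `i ≤ j` from `C'`, the others from `C`, has the top
`((tp C).1, (tp C').2)`. (v) As both tops are minimal and different, they are not comparable:
if `(tp C').1 < (tp C).1` then `tp D ≤ tp C`, `tp D ≠ tp C`, contradiction; if
`(tp C').1 > (tp C).1` then `(tp C').2 < (tp C).2` (not comparable) and `tp D'` is below `tp C`,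
contradiction; if `(tp C').1 = (tp C).1` the tops are comparable, contradiction. -/
def INS_stmt : Prop := ∀ s : ℕ, InsP (zr s) (s + 1)

/-- `RC0` (medium; hypotheses `CPA_stmt`, `HMN_stmt`, `IND_stmt`, `ONE_stmt`, `SBD_stmt`,
`GEW_stmt`). `p = θ/H^2 ≤ 1`. By `CPA` (5), `{mnU (X ++ [b]) ω z}` is contained in the union over the
pairs `(q, C)` with `C` a copy `≥ q`, `tp C = z`, of `{mnU X ω q} ∩ {all cells of C are true}`; the
first event depends on `box 0 q`, the second on the cells of `C`, which are `≥ q`: independent,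
`Pm {mnU X ω q} p^(w+1)`. Union bound (`measure_iUnion_le`), multiply by
`ta^(2 nm z) ≤ ta^(nm q) ta^(nm (tp C))`, sum over `z` (each `C` has one top), `SBD`. -/
def RC0_stmt : Prop := ∀ (H : ℕ) (θ : ℝ) (X : List Pat) (b : Pat), 1 ≤ H → 0 ≤ θ → θ ≤ 1 →
  A1 H (den θ H) (X ++ [b]) ≤
    ENNReal.ofReal ((16 * ((b.1 : ℝ) + 1) ^ 2 * θ) ^ (b.1 + 1)) * A1 H (den θ H) X

/-- `RC2` (medium-long; hypotheses `CPA_stmt`, `HMN_stmt`, `IND_stmt`, `ONE_stmt`, `PBD_stmt`). Pairs.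
Let `z ≠ z'` be minimal for `X ++ [b]`; `CPA` (5) gives `(q, C)`, `(q', C')` with tops `z`, `z'`. If
`q = q'`: by `CPA` (6) and `InsP b r`, `r ≤ |cls C' \ cls C|`. If `q ≠ q'`: `1 ≤ |cls C' \ cls C|`
(otherwise the tops would be equal, `CPA` (7)). So
`{mnU (X++[b]) z ∧ mnU (X++[b]) z'}` is contained in the union over `q, C, C'` (first case) of
`{mnU X q} ∩ {cls C ∪ cls C' true}` and over `q ≠ q'`, `C, C'` (second case) of
`{mnU X q ∧ mnU X q'} ∩ {cls C ∪ cls C' true}`. Independence: the first event depends on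
`box 0 q ∪ box 0 q'`; the cells of `C` are `≥ q`, those of `C'` `≥ q'`; a cell `c ≥ q` in `box 0 q'`
would give `q ≤ q'`, so `q = q'` by `HMN` (2) (if `q, q'` are comparable and different the event is
empty), and then `c ∉ box 0 q`. So the probabilities are at most
`Pm {mnU X q ∧ mnU X q'} p^|cls C ∪ cls C'|`. Multiply by `ta^(nm z + nm z')`, sum over `z, z'` (the
tops), and use `PBD` with `a = a' = q`, `j = r` and `a = q`, `a' = q'`, `j = 1`. Constants: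
`(m+1)^m (16 m^2 θ)^(m+j) ≤ K θ^(m+j)` with `K = (M+1)^M (16 M^2)^(2M)`, `θ₀ = 1/(16 M^2)`. -/
def RC2_stmt : Prop := ∀ M : ℕ, 1 ≤ M → ∃ K θ₀ : ℝ, 0 < K ∧ 0 < θ₀ ∧ θ₀ ≤ 1 ∧
  ∀ (θ : ℝ) (H : ℕ) (X : List Pat) (b : Pat) (r : ℕ), 0 < θ → θ ≤ θ₀ → 1 ≤ H → b.1 + 1 ≤ M →
  r ≤ M → 1 ≤ r → InsP b r → A2 H (den θ H) (X ++ [b]) ≤
    ENNReal.ofReal (K * θ ^ (b.1 + 1 + r)) * A1 H (den θ H) X +
    ENNReal.ofReal (K * θ ^ (b.1 + 1 + 1)) * A2 H (den θ H) X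

/-- `RC1` (medium-long; hypotheses `MUM_stmt`, `IND_stmt`, `HLA_stmt`, `HMN_stmt`, `TRL_stmt`,
`LOB_stmt`, `GEW_stmt`). Lower bound for `A1`. Call `q` isolated (in `ω`) if `mnU X ω q` and no `q'` with
`¬ q ≤ q'`, `¬ q' ≤ q`, `nm q' ≤ nm q + 2H` has `mnU X ω q'`. This event `I_q` depends on `box 0 q` and
the `box 0 q'` for these finitely many `q'`, so on finitely many cells outside of `[q, ∞)` (if
`q ≤ c < q'` then `q ≤ q'`), so it is independent of `B_q = {HP b.2 ω q (q + (H,H))}`, which has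
probability `≥ β = (θ/(8 m^2))^m` by `TRL`, `LOB` (`HP b.2` is `HL [b]`). At most one `q` is isolated
(if `q ≠ q'` are both isolated then `nm q' > nm q + 2H` and `nm q > nm q' + 2H`). On `I_q ∩ B_q` there
is a minimal `z ≤ q + (H,H)` for `X ++ [b]`, `nm z ≤ nm q + 2H`, so
`ta^(2 nm z) ≥ ta^(2 nm q) ta^(4H) ≥ ta^(2 nm q) / 9`. Hence
`A1 (X ++ [b]) ≥ ∑_q (1/9) ta^(2 nm q) Pm (I_q ∩ B_q) ≥ (β/9) ∑_q ta^(2 nm q) Pm I_q` (the events
`I_q ∩ B_q` are disjoint; write `A1` as the integral of `∑_z ta^(2 nm z) 1{mnU (X++[b]) z}`, or split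
`I_q ∩ B_q` according to `z` and sum over `q` first). And `Pm {mnU X q} ≤ Pm I_q +
∑_(q' ≠ q, nm q' ≤ nm q + 2H) Pm {mnU X q ∧ mnU X q'}`, where
`ta^(2 nm q) ≤ 3 ta^(nm q + nm q')` (`ta^(nm q' - nm q) ≥ ta^(2H) ≥ 1/3`, trivial if
`nm q' ≤ nm q`): `A1 X ≤ ∑_q ta^(2 nm q) Pm I_q + 3 A2 X`. With `c = (1/9)(1/(8 M^2))^M ≤ 1`, and
`β ≥ (1/(8M^2))^M θ^m`. -/
def RC1_stmt : Prop := ∀ M : ℕ, 1 ≤ M → ∃ c : ℝ, 0 < c ∧ c ≤ 1 ∧
  ∀ (θ : ℝ) (H : ℕ) (X : List Pat) (b : Pat), 0 < θ → θ ≤ 1 → M ≤ H → b.1 + 1 ≤ M →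
  ENNReal.ofReal (c * θ ^ (b.1 + 1)) * A1 H (den θ H) X ≤
    A1 H (den θ H) (X ++ [b]) +
    ENNReal.ofReal (3 * c * θ ^ (b.1 + 1)) * A2 H (den θ H) X

/-- `PTD` (medium; hypotheses `RC0_stmt`, `RC1_stmt`, `RC2_stmt`, `IN1_stmt`, `HMN_stmt`). Pairs are
negligible. Induction on the list from the right (`List.reverseRecOn`). `A1 [] = 1`, `A2 [] = 0` (only
`z = 0` is minimal, `HMN` (8)). Let `K₁, θ₁` be from `RC2` (with `r = 1`), `c₁` from `RC1`, and put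
`K = 4 K₁ / c₁`, `c = c₁/2`, `θ₀` with `K θ₀ ≤ 1`, `3 K θ₀ ≤ 1/2`, `16 M^2 θ₀ ≤ 1`, `θ₀ ≤ θ₁`. Step: as
`A2 X ≤ K θ A1 X`: `A1 (X++[b]) ≥ c₁ θ^m (1 - 3 K θ) A1 X ≥ (c₁/2) θ^m A1 X` (all finite by `A1 X ≤ 1`)
and `A2 (X++[b]) ≤ K₁ θ^(m+1) (1 + K θ) A1 X ≤ 2 K₁ θ^(m+1) A1 X ≤ (4K₁/c₁) θ A1 (X++[b])`.
`A1 ≤ 1` by `RC0` (the factor is `≤ 1`). `A1 (X++[b]) ≥ c θ^m (c θ)^(tl X) ≥ (c θ)^(tl X + m)`. -/
def PTD_stmt : Prop := ∀ M : ℕ, 1 ≤ M → ∃ K c θ₀ : ℝ, 0 < K ∧ 0 < c ∧ c ≤ 1 ∧ 0 < θ₀ ∧ θ₀ ≤ 1 ∧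
  ∀ (θ : ℝ) (H : ℕ) (X : List Pat), 0 < θ → θ ≤ θ₀ → M ≤ H → (∀ b ∈ X, b.1 + 1 ≤ M) →
  A2 H (den θ H) X ≤ ENNReal.ofReal (K * θ) * A1 H (den θ H) X ∧
  A1 H (den θ H) X ≤ 1 ∧ ENNReal.ofReal ((c * θ) ^ tl X) ≤ A1 H (den θ H) X ∧
  (∀ b : Pat, b.1 + 1 ≤ M →
    ENNReal.ofReal (c * θ ^ (b.1 + 1)) * A1 H (den θ H) X ≤ A1 H (den θ H) (X ++ [b]))

/-- `INU` (medium; hypotheses `PTD_stmt`, `RC2_stmt`, `INS_stmt`). After the insulation. Let
`r = s + 1`, `m = r^2`, `X_i = X ++ replicate i (zr s)`. Claim by induction on `i`: there is `L_i` with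
`A2 X_i ≤ L_i θ^(min r (i+1)) A1 X_i` (for all `θ ≤ θ₀, H, X`). `i = 0`: `PTD`. Step (`X_(i+1) =
X_i ++ [zr s]`): `A2 X_(i+1) ≤ K₁ θ^(m+r) A1 X_i + K₁ θ^(m+1) L_i θ^(min r (i+1)) A1 X_i`
`≤ K₁ (1 + L_i) θ^(m + min r (i+2)) A1 X_i`, and `A1 X_i ≤ A1 X_(i+1) / (c θ^m)` by `PTD` (last part):
`L_(i+1) = K₁ (1 + L_i) / c`. Take `i = r`. -/
def INU_stmt : Prop := ∀ M s : ℕ, (s + 1) ^ 2 ≤ M → ∃ K θ₀ : ℝ, 0 < K ∧ 0 < θ₀ ∧ θ₀ ≤ 1 ∧
  ∀ (θ : ℝ) (H : ℕ) (X : List Pat), 0 < θ → θ ≤ θ₀ → M ≤ H → (∀ b ∈ X, b.1 + 1 ≤ M) →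
  A2 H (den θ H) (X ++ Iz s) ≤
    ENNReal.ofReal (K * θ ^ (s + 1)) * A1 H (den θ H) (X ++ Iz s)

end

end Pool.Agent.MSW
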