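import Pool.Agent.helper47.MSW.SpecA

/-!
# MSW CPA: copies and their tops
-/

set_option autoImplicit false

namespace Pool.Agent.MSW

open Equiv Finset Function MeasureTheory Pool.Agent.helper48.PP
open Pool.Agent.DSW (Pr Has GP wt)
open scoped ENNReal Classical

theorem CPA_mem {k : ℕ} {τ : Perm (Fin k)} {C : Cp k} {c : Pt} :
    c ∈ cls τ C ↔ ∃ j, (C.1 j, C.2 (τ j)) = c := by
  unfold cls
  rw [Finset.mem_image]
  exact ⟨fun ⟨j, _, h⟩ => ⟨j, h⟩, fun ⟨j, h⟩ => ⟨j, Finset.mem_univ _, h⟩⟩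

theorem CPA_card {k : ℕ} (τ : Perm (Fin k)) (C : Cp k) (hC : isC C) : (cls τ C).card = k := by
  unfold cls
  rw [Finset.card_image_of_injective, Finset.card_univ, Fintype.card_fin]
  intro i j hij
  exact hC.1.injective (Prod.mk.inj hij).1

theorem CPA_le {w : ℕ} {x : Fin (w + 1) → ℕ} (hx : StrictMono x) (j : Fin (w + 1)) :
    x j < x (Fin.last w) + 1 := Nat.lt_succ_of_le (hx.monotone (Fin.le_last j))

theorem CPA_hp {w : ℕ} (τ : Perm (Fin (w + 1))) (C : Cp (w + 1)) (ω : Om) (a : Pt) (hC : isC C)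
    (ha : geP a C) (hω : ∀ c ∈ cls τ C, ω c = true) : HP τ ω a (tp C) := by
  refine ⟨⟨?_, ?_⟩, C.1, C.2, hC.1, hC.2, fun j => ⟨hω _ (CPA_mem.mpr ⟨j, rfl⟩),
    ⟨(ha j).1, CPA_le hC.1 j⟩, ⟨(ha j).2, CPA_le hC.2 j⟩⟩⟩
  · exact (ha (Fin.last w)).1.trans (Nat.le_succ _)
  · exact (ha (Fin.last w)).2.trans (Nat.le_succ _)

theorem CPA_copy {w : ℕ} (τ : Perm (Fin (w + 1))) (ω : Om) (a z : Pt) (h : HP τ ω a z) :
    ∃ C : Cp (w + 1), isC C ∧ geP a C ∧ (∀ c ∈ cls τ C, ω c = true) ∧ tp C ≤ z := by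
  obtain ⟨_, x, y, hx, hy, hxy⟩ := h
  refine ⟨(x, y), ⟨hx, hy⟩, fun j => ⟨(hxy j).2.1.1, (hxy j).2.2.1⟩, fun c hc => ?_, ?_, ?_⟩
  · obtain ⟨j, hj⟩ := CPA_mem.mp hc
    rw [← hj]; exact (hxy j).1
  · exact Nat.succ_le_of_lt (hxy (Fin.last w)).2.1.2
  · exact Nat.succ_le_of_lt (hxy (Fin.last w)).2.2.2

theorem CPA_top {w : ℕ} (τ : Perm (Fin (w + 1))) (C C' : Cp (w + 1)) (hC : isC C)
    (hC' : isC C') (h : cls τ C' ⊆ cls τ C) : tp C' = tp C := by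
  have heq : cls τ C' = cls τ C :=
    Finset.eq_of_subset_of_card_le h (by rw [CPA_card τ C hC, CPA_card τ C' hC'])
  have key : ∀ D D' : Cp (w + 1), isC D → isC D' → cls τ D' = cls τ D →
      D'.1 (Fin.last w) ≤ D.1 (Fin.last w) ∧ D'.2 (Fin.last w) ≤ D.2 (Fin.last w) := by
    intro D D' hD hD' hDD
    constructor
    · have h1 : (D'.1 (Fin.last w), D'.2 (τ (Fin.last w))) ∈ cls τ D := by
        rw [← hDD]; exact CPA_mem.mpr ⟨_, rfl⟩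
      obtain ⟨j, hj⟩ := CPA_mem.mp h1
      rw [← (Prod.mk.inj hj).1]
      exact hD.1.monotone (Fin.le_last j)
    · have h1 : (D'.1 (τ.symm (Fin.last w)), D'.2 (τ (τ.symm (Fin.last w)))) ∈ cls τ D := by
        rw [← hDD]; exact CPA_mem.mpr ⟨_, rfl⟩
      obtain ⟨j, hj⟩ := CPA_mem.mp h1
      have h2 := (Prod.mk.inj hj).2
      rw [Equiv.apply_symm_apply] at h2
      rw [← h2]
      exact hD.2.monotone (Fin.le_last _)
  have h1 := key C C' hC hC' heq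
  have h2 := key C' C hC' hC heq.symm
  unfold tp
  rw [le_antisymm h1.1 h2.1, le_antisymm h1.2 h2.2]

theorem CPA (hHLA : HLA_stmt) (hHMN : HMN_stmt) : CPA_stmt := by
  obtain ⟨hA1, hA2, hA3, hA4, hA5, hA6, hA7⟩ := hHLA
  obtain ⟨hM1, hM2, hM3, hM4, hM5, hM6, hM7, hM8⟩ := hHMN
  refine ⟨fun k τ C hC => CPA_card τ C hC, fun w τ C ω a hC ha hω => CPA_hp τ C ω a hC ha hω,
    fun w τ ω a z h => CPA_copy τ ω a z h, ?_, ?_, ?_, fun w τ C C' hC hC' h =>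
      CPA_top τ C C' hC hC' h⟩
  · intro w τ C a c hC ha hc
    obtain ⟨j, hj⟩ := CPA_mem.mp hc
    rw [← hj, mem_box]
    exact ⟨⟨(ha j).1, (ha (τ j)).2⟩, CPA_le hC.1 j, CPA_le hC.2 (τ j)⟩
  · intro X b ω z hz
    obtain ⟨m, hm1, hm2⟩ := (hA2 X [b] ω 0 z).mp hz.1
    obtain ⟨p, hpm, hp⟩ := hM1 X ω m hm1
    obtain ⟨C, hC, hge, hω, htp⟩ := CPA_copy b.2 ω m z ((hA7 b ω m z).mp hm2)
    refine ⟨p, C, hp, hC, fun j => ⟨hpm.1.trans (hge j).1, hpm.2.trans (hge j).2⟩, hω, ?_⟩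
    refine hz.2 (tp C) ?_ htp
    rw [hA2]
    exact ⟨m, hm1, (hA7 b ω m (tp C)).mpr (CPA_hp b.2 C ω m hC hge hω)⟩
  · intro X b ω z p hz hp z' hz' hle
    refine hz.2 z' ?_ hle
    rw [hA2]
    exact ⟨p, hp, (hA7 b ω p z').mpr hz'⟩

end Pool.Agent.MSW
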