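import Pool.Agent.helper47.MSW.SpecA
import Pool.Agent.helper47.MSW.SpecB
import Pool.Agent.helper47.MSW.SpecC
import Pool.Agent.helper47.MSW.SpecD
import Pool.Agent.helper71.DSW.SpecB

set_option autoImplicit false

namespace Pool.Agent.MSW

theorem chk (gpb : Pool.Agent.DSW.GPB_stmt) (gpc : Pool.Agent.DSW.GPC_stmt)
  (MUM : MUM_stmt)
  (IND : MUM_stmt → IND_stmt)
  (ONE : MUM_stmt → ONE_stmt)
  (TRN : MUM_stmt → TRN_stmt)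
  (HLA : HLA_stmt)
  (HMN : HLA_stmt → HMN_stmt)
  (RFA : HLA_stmt → RFA_stmt)
  (RFB : HLA_stmt → HMN_stmt → RFA_stmt → TRN_stmt → RFB_stmt)
  (TRL : HLA_stmt → TRN_stmt → TRL_stmt)
  (FLT : HLA_stmt → FLT_stmt)
  (ASC : ASC_stmt)
  (CPA : HLA_stmt → HMN_stmt → CPA_stmt)
  (CNT : HLA_stmt → ONE_stmt → CNT_stmt)
  (LOB : IND_stmt → MUM_stmt → ONE_stmt → LOB_stmt)
  (GEM : GEM_stmt)
  (GEW : GEM_stmt → GEW_stmt)
  (GPE : MUM_stmt → Pool.Agent.DSW.GPB_stmt → GEM_stmt → GEW_stmt → GPE_stmt)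
  (PRG : PRG_stmt)
  (SBD : PRG_stmt → GEW_stmt → SBD_stmt)
  (PBD : PRG_stmt → GEW_stmt → SBD_stmt → PBD_stmt)
  (IN1 : CPA_stmt → IN1_stmt)
  (RCZ : RCZ_stmt)
  (INS : RCZ_stmt → CPA_stmt → INS_stmt)
  (RC0 : CPA_stmt → HMN_stmt → IND_stmt → ONE_stmt → SBD_stmt → GEW_stmt → RC0_stmt)
  (RC2 : CPA_stmt → HMN_stmt → IND_stmt → ONE_stmt → PBD_stmt → RC2_stmt)
  (RC1 : MUM_stmt → IND_stmt → HLA_stmt → HMN_stmt → TRL_stmt → LOB_stmt → GEW_stmt → RC1_stmt)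
  (PTD : RC0_stmt → RC1_stmt → RC2_stmt → IN1_stmt → HMN_stmt → PTD_stmt)
  (INU : PTD_stmt → RC2_stmt → INS_stmt → INU_stmt)
  (SPT : HLA_stmt → HMN_stmt → SPT_stmt)
  (QDP : HLA_stmt → HMN_stmt → QDP_stmt)
  (IN2 : IND_stmt → HMN_stmt → IN2_stmt)
  (TSM : GEW_stmt → TSM_stmt)
  (TSE : GEW_stmt → TSE_stmt)
  (QSM : MUM_stmt → IND_stmt → HLA_stmt → SPT_stmt → QDP_stmt → QSM_stmt)
  (QLB : IN2_stmt → HMN_stmt → QLB_stmt)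
  (SQS : QLB_stmt → TSM_stmt → TSE_stmt → RFB_stmt → GEW_stmt → PTD_stmt → SQS_stmt)
  (ZPR : IND_stmt → HLA_stmt → HMN_stmt → SPT_stmt → TRL_stmt → RFB_stmt → TSM_stmt → ZPR_stmt)
  (ZBU : FLT_stmt → CNT_stmt → GEM_stmt → GEW_stmt → ZBU_stmt)
  (ZLO : SQS_stmt → QSM_stmt → HLA_stmt → TRL_stmt → FLT_stmt → LOB_stmt → ZLO_stmt)
  (ZLB : ZLO_stmt → PTD_stmt → HMN_stmt → ZLB_stmt)
  (BX2 : HLA_stmt → TRN_stmt → TRL_stmt → BX2_stmt)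
  (SWU : HLA_stmt → HMN_stmt → SPT_stmt → QSM_stmt → IN2_stmt → BX2_stmt → TRL_stmt → RFB_stmt → TSE_stmt → CNT_stmt → GEM_stmt → SWU_stmt)
  (RTU : SWU_stmt → INU_stmt → ZLO_stmt → RCZ_stmt → PTD_stmt → RTU_stmt)
  (GST : HLA_stmt → HMN_stmt → GST_stmt)
  (DCS : DCS_stmt)
  (DEC : DEC_stmt)
  (GPP : MUM_stmt → HLA_stmt → HMN_stmt → SPT_stmt → GST_stmt → DCS_stmt → DEC_stmt → GPP_stmt)
  (QIN : HLA_stmt → HMN_stmt → GST_stmt → QIN_stmt)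
  (STR : ASC_stmt → STR_stmt)
  (GAP : MUM_stmt → FLT_stmt → STR_stmt → Pool.Agent.DSW.GPC_stmt → GAP_stmt)
  (SWL : HLA_stmt → QDP_stmt → QSM_stmt → SPT_stmt → TRL_stmt → GPP_stmt → QIN_stmt → GAP_stmt → GPE_stmt → GEW_stmt → SQS_stmt → SWL_stmt)
  (RTL : SWL_stmt → ZPR_stmt → ZBU_stmt → PTD_stmt → RTL_stmt)
  (WLO : MUM_stmt → WLO_stmt)
  (WH1 : ONE_stmt → WH1_stmt)
  (WH2 : CNT_stmt → GEM_stmt → GEW_stmt → WH2_stmt)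
  (WIN : WLO_stmt → WH1_stmt → WH2_stmt → GEW_stmt → WIN_stmt)
  (LNW : MUM_stmt → GPE_stmt → GEW_stmt → Pool.Agent.DSW.GPC_stmt → LNW_stmt)
  (DIF : WIN_stmt → LNW_stmt → GEW_stmt → DIF_stmt)
  (HYB : RCZ_stmt → HYB_stmt)
  (RAT : HYB_stmt → RCZ_stmt → RAT_stmt)
  (LTF : RCZ_stmt → LTF_stmt)
  (PAR : PAR_stmt)
  (MUL : MUL_stmt)
  (FIN : RTL_stmt → RTU_stmt → ZLB_stmt → ZBU_stmt → FLT_stmt → DIF_stmt → RAT_stmt → LTF_stmt → PAR_stmt → MUL_stmt → FIN_stmt)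
  (TOP : FIN_stmt → FLT_stmt → TOP_stmt)
  : TOP_stmt := by
  have fMUM : MUM_stmt := MUM 
  have fIND : IND_stmt := IND fMUM
  have fONE : ONE_stmt := ONE fMUM
  have fTRN : TRN_stmt := TRN fMUM
  have fHLA : HLA_stmt := HLA 
  have fHMN : HMN_stmt := HMN fHLA
  have fRFA : RFA_stmt := RFA fHLA
  have fRFB : RFB_stmt := RFB fHLA fHMN fRFA fTRN
  have fTRL : TRL_stmt := TRL fHLA fTRN
  have fFLT : FLT_stmt := FLT fHLA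
  have fASC : ASC_stmt := ASC 
  have fCPA : CPA_stmt := CPA fHLA fHMN
  have fCNT : CNT_stmt := CNT fHLA fONE
  have fLOB : LOB_stmt := LOB fIND fMUM fONE
  have fGEM : GEM_stmt := GEM 
  have fGEW : GEW_stmt := GEW fGEM
  have fGPE : GPE_stmt := GPE fMUM gpb fGEM fGEW
  have fPRG : PRG_stmt := PRG 
  have fSBD : SBD_stmt := SBD fPRG fGEW
  have fPBD : PBD_stmt := PBD fPRG fGEW fSBD
  have fIN1 : IN1_stmt := IN1 fCPA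
  have fRCZ : RCZ_stmt := RCZ 
  have fINS : INS_stmt := INS fRCZ fCPA
  have fRC0 : RC0_stmt := RC0 fCPA fHMN fIND fONE fSBD fGEW
  have fRC2 : RC2_stmt := RC2 fCPA fHMN fIND fONE fPBD
  have fRC1 : RC1_stmt := RC1 fMUM fIND fHLA fHMN fTRL fLOB fGEW
  have fPTD : PTD_stmt := PTD fRC0 fRC1 fRC2 fIN1 fHMN
  have fINU : INU_stmt := INU fPTD fRC2 fINS
  have fSPT : SPT_stmt := SPT fHLA fHMN
  have fQDP : QDP_stmt := QDP fHLA fHMN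
  have fIN2 : IN2_stmt := IN2 fIND fHMN
  have fTSM : TSM_stmt := TSM fGEW
  have fTSE : TSE_stmt := TSE fGEW
  have fQSM : QSM_stmt := QSM fMUM fIND fHLA fSPT fQDP
  have fQLB : QLB_stmt := QLB fIN2 fHMN
  have fSQS : SQS_stmt := SQS fQLB fTSM fTSE fRFB fGEW fPTD
  have fZPR : ZPR_stmt := ZPR fIND fHLA fHMN fSPT fTRL fRFB fTSM
  have fZBU : ZBU_stmt := ZBU fFLT fCNT fGEM fGEW
  have fZLO : ZLO_stmt := ZLO fSQS fQSM fHLA fTRL fFLT fLOB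
  have fZLB : ZLB_stmt := ZLB fZLO fPTD fHMN
  have fBX2 : BX2_stmt := BX2 fHLA fTRN fTRL
  have fSWU : SWU_stmt := SWU fHLA fHMN fSPT fQSM fIN2 fBX2 fTRL fRFB fTSE fCNT fGEM
  have fRTU : RTU_stmt := RTU fSWU fINU fZLO fRCZ fPTD
  have fGST : GST_stmt := GST fHLA fHMN
  have fDCS : DCS_stmt := DCS 
  have fDEC : DEC_stmt := DEC 
  have fGPP : GPP_stmt := GPP fMUM fHLA fHMN fSPT fGST fDCS fDEC
  have fQIN : QIN_stmt := QIN fHLA fHMN fGST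
  have fSTR : STR_stmt := STR fASC
  have fGAP : GAP_stmt := GAP fMUM fFLT fSTR gpc
  have fSWL : SWL_stmt := SWL fHLA fQDP fQSM fSPT fTRL fGPP fQIN fGAP fGPE fGEW fSQS
  have fRTL : RTL_stmt := RTL fSWL fZPR fZBU fPTD
  have fWLO : WLO_stmt := WLO fMUM
  have fWH1 : WH1_stmt := WH1 fONE
  have fWH2 : WH2_stmt := WH2 fCNT fGEM fGEW
  have fWIN : WIN_stmt := WIN fWLO fWH1 fWH2 fGEW
  have fLNW : LNW_stmt := LNW fMUM fGPE fGEW gpc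
  have fDIF : DIF_stmt := DIF fWIN fLNW fGEW
  have fHYB : HYB_stmt := HYB fRCZ
  have fRAT : RAT_stmt := RAT fHYB fRCZ
  have fLTF : LTF_stmt := LTF fRCZ
  have fPAR : PAR_stmt := PAR 
  have fMUL : MUL_stmt := MUL 
  have fFIN : FIN_stmt := FIN fRTL fRTU fZLB fZBU fFLT fDIF fRAT fLTF fPAR fMUL
  have fTOP : TOP_stmt := TOP fFIN fFLT
  exact fTOP

end Pool.Agent.MSW
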