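import Pool.Agent.helper71.DSW.Defs

/-!
# Project msw (MP_a87880_co): two patterns of the same length that switch places many times

THEOREM. For every `T` there are `k`, two patterns `σ, τ` of the same length `k` and
`n_0 < n_1 < ... < n_(T-1)` with `|Av_n(σ)| < |Av_n(τ)|` for `n = n_j`, `j` even, and
`|Av_n(τ)| < |Av_n(σ)|` for `n = n_j`, `j` odd.

Patterns are direct sums of atoms (`Pat`: a permutation of length `w + 1`), given by lists
`X : List Pat`; `flat X` is the direct sum. The random set: every cell of `ℕ x ℕ` is taken with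
probability `p = θ / H^2`, independently (`Pm p`). `HL X ω a z`: the cells of `ω` in the box `[a, z)`
contain the direct sum of `X`. `Z H p X` is the probability of `HL X ω 0 w` for a box `[0, w)` with
geometric sides of mean `H`.

The insulator `zr s` is the skew sum of `s + 1` increasing permutations of length `s + 1`. The
blocks `Blk s true`, `Blk s false` are `s + 1` copies of `zr s`, then `12` or `21`, then `s + 1`
copies of `zr s`. One change of a block `Blk s false` into `Blk s true` multiplies `Z` by a factor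
between `1 + c θ^e` and `1 + C θ^(s+1)`, where `e = e(s)` (rows `RTL`, `RTU`). If
`s_(i+1) >= e(s_i)`, the parameters `θ_0 << θ_1 << ...` and multiplicities `m_i` of the types can be
chosen such that at `θ_j` the changes of type `j` dominate (row `PAR`); by the choice of the window
(row `WIN`) most of `Z` at `θ_j` comes from `n` of order `θ_j k^2`.
-/

set_option autoImplicit false

namespace Pool.Agent.MSW

open Equiv Finset Function MeasureTheory Pool.Agent.helper48.PP
open Pool.Agent.DSW (Pr Has GP wt)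
open scoped ENNReal Classical

noncomputable section

/-! ## Points, fields, boxes -/

/-- Cells (points) of the quarter plane, with the product order. -/
abbrev Pt := ℕ × ℕ

/-- The 0-1 fields. -/
abbrev Om := Pt → Bool

/-- The box `[a, b)`. -/
def box (a b : Pt) : Finset Pt := Finset.Ico a.1 b.1 ×ˢ Finset.Ico a.2 b.2

theorem mem_box {a b c : Pt} :
    c ∈ box a b ↔ (a.1 ≤ c.1 ∧ a.2 ≤ c.2) ∧ (c.1 < b.1 ∧ c.2 < b.2) := by
  unfold box
  rw [Finset.mem_product, Finset.mem_Ico, Finset.mem_Ico]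
  tauto

/-- The norm. -/
def nm (z : Pt) : ℕ := z.1 + z.2

/-- The field with the ones in `S`. -/
def ind (S : Finset Pt) : Om := fun c => decide (c ∈ S)

/-- The ones of `ω` in the box `[a, b)`. -/
def tr (ω : Om) (a b : Pt) : Finset Pt := (box a b).filter fun c => ω c = true

/-! ## The measure -/

/-- The density, cut off to `[0,1]`. -/
def clip (p : ℝ) : ℝ := max 0 (min p 1)

theorem clip_eq {p : ℝ} (h0 : 0 ≤ p) (h1 : p ≤ 1) : clip p = p := by
  unfold clip; rw [min_eq_left h1, max_eq_right h0]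

/-- The Bernoulli measure. -/
def bern (p : ℝ) : Measure Bool :=
  ENNReal.ofReal (clip p) • Measure.dirac true + ENNReal.ofReal (1 - clip p) • Measure.dirac false

instance bern_prob (p : ℝ) : IsProbabilityMeasure (bern p) := by
  constructor
  have h0 : 0 ≤ clip p := le_max_left _ _
  have h1 : clip p ≤ 1 := max_le zero_le_one (min_le_right _ _)
  simp only [bern, Measure.coe_add, Measure.coe_smul, Pi.add_apply, Pi.smul_apply, measure_univ,
    smul_eq_mul, mul_one]
  rw [← ENNReal.ofReal_add h0 (by linarith)]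
  simp

/-- The law of the random field: independent entries, each `true` with probability `p`. -/
def Pm (p : ℝ) : Measure Om := Measure.infinitePi fun _ : Pt => bern p

instance Pm_prob (p : ℝ) : IsProbabilityMeasure (Pm p) := by
  unfold Pm; infer_instance

/-- The event `A` depends only on the cells in `F`. -/
def Dep (F : Finset Pt) (A : Set Om) : Prop :=
  ∀ ω ω' : Om, (∀ c ∈ F, ω c = ω' c) → (ω ∈ A ↔ ω' ∈ A)

theorem Dep.mono {F G : Finset Pt} {A : Set Om} (h : F ⊆ G) (hA : Dep F A) : Dep G A :=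
  fun ω ω' H => hA ω ω' fun c hc => H c (h hc)

theorem Dep.inter {F G : Finset Pt} {A B : Set Om} (hA : Dep F A) (hB : Dep G B) :
    Dep (F ∪ G) (A ∩ B) := fun ω ω' H =>
  and_congr (hA ω ω' fun c hc => H c (Finset.mem_union_left _ hc))
    (hB ω ω' fun c hc => H c (Finset.mem_union_right _ hc))

theorem Dep.compl {F : Finset Pt} {A : Set Om} (hA : Dep F A) : Dep F Aᶜ := fun ω ω' H =>
  not_congr (hA ω ω' H)

theorem Dep.union {F G : Finset Pt} {A B : Set Om} (hA : Dep F A) (hB : Dep G B) :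
    Dep (F ∪ G) (A ∪ B) := fun ω ω' H =>
  or_congr (hA ω ω' fun c hc => H c (Finset.mem_union_left _ hc))
    (hB ω ω' fun c hc => H c (Finset.mem_union_right _ hc))

theorem Dep.univ (F : Finset Pt) : Dep F (Set.univ : Set Om) := fun _ _ _ => by simp

theorem Dep.tr (a b : Pt) (Q : Finset Pt → Prop) : Dep (box a b) {ω | Q (tr ω a b)} := by
  intro ω ω' H
  have h : Pool.Agent.MSW.tr ω a b = Pool.Agent.MSW.tr ω' a b := by
    unfold Pool.Agent.MSW.tr
    refine Finset.filter_congr fun c hc => ?_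
    rw [H c hc]
  show Q (Pool.Agent.MSW.tr ω a b) ↔ Q (Pool.Agent.MSW.tr ω' a b)
  rw [h]

/-! ## Patterns -/

/-- The pattern `τ` occurs in the ones of `ω` in the box `[a, z)`. -/
def HP {k : ℕ} (τ : Perm (Fin k)) (ω : Om) (a z : Pt) : Prop :=
  a ≤ z ∧ ∃ x y : Fin k → ℕ, StrictMono x ∧ StrictMono y ∧
    ∀ j, ω (x j, y (τ j)) = true ∧ (a.1 ≤ x j ∧ x j < z.1) ∧ (a.2 ≤ y j ∧ y j < z.2)

/-- Atoms: nonempty patterns. -/
abbrev Pat := Σ w : ℕ, Perm (Fin (w + 1))

/-- The direct sum of the atoms in the list occurs in the ones of `ω` in the box `[a, z)`. -/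
def HL : List Pat → Om → Pt → Pt → Prop
  | [], _, a, z => a ≤ z
  | b :: l, ω, a, z => ∃ m : Pt, HP b.2 ω a m ∧ HL l ω m z

/-- The total length. -/
def tl (X : List Pat) : ℕ := (X.map fun b => b.1 + 1).sum

/-- The direct sum of the atoms in the list. -/
def flat : List Pat → Σ k : ℕ, Perm (Fin k)
  | [] => ⟨0, 1⟩
  | b :: l => ⟨b.1 + 1 + (flat l).1, dsum b.2 (flat l).2⟩

/-- `z` is a minimal point with the pattern in `[0, z)`. -/
def mnU (X : List Pat) (ω : Om) (z : Pt) : Prop :=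
  HL X ω 0 z ∧ ∀ z', HL X ω 0 z' → z' ≤ z → z' = z

/-- `q` is a maximal point with the pattern in `[q, w)`. -/
def mxV (Y : List Pat) (ω : Om) (w q : Pt) : Prop :=
  HL Y ω q w ∧ ∀ q', HL Y ω q' w → q ≤ q' → q' = q

/-- Invariance under reverse-complement. -/
def RC (b : Pat) : Prop := ∀ j, b.2 (Fin.rev j) = Fin.rev (b.2 j)

/-- The atoms have size at most `M` and are invariant under reverse-complement. -/
def Adm (M : ℕ) (X : List Pat) : Prop := ∀ b ∈ X, b.1 + 1 ≤ M ∧ RC b

/-- The permutation with `s + 1` increasing layers of length `s + 1`, each below and to the right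
of the preceding ones: position `(s+1) i + t` carries the value `(s+1)(s-i) + t`. -/
def zrp (s : ℕ) : Perm (Fin ((s + 1) * (s + 1))) :=
  (finProdFinEquiv.symm.trans
    (Equiv.prodCongr (Fin.revPerm : Perm (Fin (s + 1))) (Equiv.refl (Fin (s + 1))))).trans
      finProdFinEquiv

/-- The insulator. -/
def zr (s : ℕ) : Pat := ⟨(s + 1) * s + s, zrp s⟩

/-- The atoms `12` (`true`) and `21` (`false`). -/
def sw : Bool → Pat
  | true => ⟨1, 1⟩
  | false => ⟨1, Equiv.swap 0 1⟩

/-- The insulation. -/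
def Iz (s : ℕ) : List Pat := List.replicate (s + 1) (zr s)

/-- The blocks. -/
def Blk (s : ℕ) (ε : Bool) : List Pat := Iz s ++ [sw ε] ++ Iz s

/-! ## Copies -/

/-- Pairs (columns, rows). -/
abbrev Cp (k : ℕ) := (Fin k → ℕ) × (Fin k → ℕ)

/-- The cells of the copy. -/
def cls {k : ℕ} (τ : Perm (Fin k)) (C : Cp k) : Finset Pt :=
  Finset.univ.image fun j => (C.1 j, C.2 (τ j))

/-- Increasing columns and rows. -/
def isC {k : ℕ} (C : Cp k) : Prop := StrictMono C.1 ∧ StrictMono C.2

/-- The copy is in `[a, ∞)`. -/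
def geP {k : ℕ} (a : Pt) (C : Cp k) : Prop := ∀ j, a.1 ≤ C.1 j ∧ a.2 ≤ C.2 j

/-- The top: the smallest `z` such that the copy is in `[0, z)`. -/
def tp {w : ℕ} (C : Cp (w + 1)) : Pt := (C.1 (Fin.last w) + 1, C.2 (Fin.last w) + 1)

/-- Insulation: two copies of `b` whose tops are different minimal points differ in at least `r`
cells. -/
def InsP (b : Pat) (r : ℕ) : Prop := ∀ (ω : Om) (a : Pt) (C C' : Cp (b.1 + 1)),
  isC C → isC C' → geP a C → geP a C' →
  (∀ c ∈ cls b.2 C, ω c = true) → (∀ c ∈ cls b.2 C', ω c = true) →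
  (∀ z, HP b.2 ω a z → z ≤ tp C → z = tp C) → (∀ z, HP b.2 ω a z → z ≤ tp C' → z = tp C') →
  tp C ≠ tp C' → r ≤ (cls b.2 C' \ cls b.2 C).card

/-! ## Weights and sums -/

/-- `√(H/(H+1))`. -/
def ta (H : ℕ) : ℝ≥0∞ := ENNReal.ofReal (Real.sqrt ((H : ℝ) / (H + 1)))

/-- `1 - 1/(2 m (H+1))`. -/
def up (m H : ℕ) : ℝ≥0∞ := ENNReal.ofReal (1 - 1 / (2 * m * (H + 1)))

/-- The density for the parameter `θ`. -/
def den (θ : ℝ) (H : ℕ) : ℝ := θ / (H : ℝ) ^ 2

/-- The sum over the minimal points. -/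
def A1 (H : ℕ) (p : ℝ) (X : List Pat) : ℝ≥0∞ :=
  ∑' z : Pt, ta H ^ (2 * nm z) * Pm p {ω | mnU X ω z}

/-- The sum over the pairs of different minimal points. -/
def A2 (H : ℕ) (p : ℝ) (X : List Pat) : ℝ≥0∞ :=
  ∑' zz : Pt × Pt, if zz.1 = zz.2 then 0 else
    ta H ^ (nm zz.1 + nm zz.2) * Pm p {ω | mnU X ω zz.1 ∧ mnU X ω zz.2}

/-- The probability of the list `X` in a box with geometric sides. -/
def Z (H : ℕ) (p : ℝ) (X : List Pat) : ℝ≥0∞ :=
  ∑' w : Pt, wt H w.1 * wt H w.2 * Pm p {ω | HL X ω 0 w}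

/-- The same for a single pattern. -/
def Zp {k : ℕ} (H : ℕ) (p : ℝ) (σ : Perm (Fin k)) : ℝ≥0∞ :=
  ∑' w : Pt, wt H w.1 * wt H w.2 * Pm p {ω | HP σ ω 0 w}

/-- The part of it where the number of ones is in `W`. -/
def ZW {k : ℕ} (H : ℕ) (p : ℝ) (σ : Perm (Fin k)) (W : Set ℕ) : ℝ≥0∞ :=
  ∑' w : Pt, wt H w.1 * wt H w.2 * Pm p {ω | HP σ ω 0 w ∧ (tr ω 0 w).card ∈ W}

/-- The error term. -/
def ER (H : ℕ) (p : ℝ) (X Y : List Pat) : ℝ≥0∞ :=
  A2 H p X * A1 H p Y.reverse + A1 H p X * A2 H p Y.reverse + A2 H p X * A2 H p Y.reverse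

/-- `(p, q)` is the only pair of a minimal point for `X` and a maximal point for `Y` with
`p ≤ q`. -/
def Qe (X Y : List Pat) (ω : Om) (w p q : Pt) : Prop :=
  mnU X ω p ∧ mxV Y ω w q ∧ p ≤ q ∧
    ∀ p' q', mnU X ω p' → mxV Y ω w q' → p' ≤ q' → p' = p ∧ q' = q

/-- The sides of the box are between `H` and `2H`. -/
def Jb (H : ℕ) (s : Pt) : Prop := (H ≤ s.1 ∧ s.1 < 2 * H) ∧ (H ≤ s.2 ∧ s.2 < 2 * H)

/-- The cell `c` is between the minimal points for `X` and the maximal points for `Y`. -/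
def inG (X Y : List Pat) (ω : Om) (w c : Pt) : Prop :=
  ∃ p q, mnU X ω p ∧ mxV Y ω w q ∧ c ∈ box p q

/-- Reflection of the box `[0, w)`. -/
def rf (w c : Pt) : Pt := (w.1 - 1 - c.1, w.2 - 1 - c.2)

/-- The window of the lengths `n` of order `θ k^2`. -/
def Win (K θ : ℝ) (k : ℕ) : Set ℕ := {n | θ * (k : ℝ) ^ 2 / K ≤ n ∧ (n : ℝ) ≤ K * θ * (k : ℝ) ^ 2}

/-- The list of atoms of a list of blocks. -/
def Lst (L : List (ℕ × Bool)) : List Pat := L.flatMap fun a => Blk a.1 a.2

end

end Pool.Agent.MSW
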