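import Pool.Agent.helper47.MSW.SpecA
import Pool.Agent.helper47.MSW.SpecC
import Pool.Agent.helper47.MSW.SpecD

/-!
# MSW FIN: assembly
-/

set_option autoImplicit false

namespace Pool.Agent.MSW

open Equiv Finset Function MeasureTheory Pool.Agent.helper48.PP
open Pool.Agent.DSW (Pr Has GP wt)
open scoped ENNReal Classical

theorem FIN_min (T : ℕ) (g : ℕ → ℝ) (hg : ∀ i, 0 < g i) :
    ∃ m : ℝ, 0 < m ∧ m ≤ 1 ∧ ∀ i < T, m ≤ g i := by
  induction T with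
  | zero => exact ⟨1, one_pos, le_refl _, fun i hi => absurd hi (by omega)⟩
  | succ T ih =>
    obtain ⟨m, hm, hm1, hmi⟩ := ih
    refine ⟨min m (g T), lt_min hm (hg T), (min_le_left _ _).trans hm1, fun i hi => ?_⟩
    rcases Nat.lt_succ_iff_lt_or_eq.mp hi with h | h
    · exact (min_le_left _ _).trans (hmi i h)
    · rw [h]; exact min_le_right _ _

theorem FIN_sum (T : ℕ) (g : ℕ → ℕ) (j : ℕ) (hj : j < T) : g j ≤ ∑ i ∈ Finset.range T, g i :=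
  Finset.single_le_sum (f := g) (fun i _ => Nat.zero_le _) (Finset.mem_range.mpr hj)

/-- Real form of an inequality between the `Z`. -/
theorem FIN_low {a : ℝ} {x y : ℝ≥0∞} (ha : 0 ≤ a) (hy : y ≠ ⊤) (h : ENNReal.ofReal a * x ≤ y) :
    a * x.toReal ≤ y.toReal := by
  have h1 := ENNReal.toReal_mono hy h
  rwa [ENNReal.toReal_mul, ENNReal.toReal_ofReal ha] at h1

theorem FIN_upp {a : ℝ} {x y : ℝ≥0∞} (ha : 0 ≤ a) (hy : y ≠ ⊤) (h : x ≤ ENNReal.ofReal a * y) :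
    x.toReal ≤ a * y.toReal := by
  have h1 := ENNReal.toReal_mono (ENNReal.mul_ne_top ENNReal.ofReal_ne_top hy) h
  rwa [ENNReal.toReal_mul, ENNReal.toReal_ofReal ha] at h1

theorem FIN_four {x y : ℝ≥0∞} (hx : x ≠ ⊤) (hy : y ≠ ⊤) (h : 4 * x.toReal ≤ y.toReal) :
    4 * x ≤ y := by
  have h1 : (4 * x).toReal ≤ y.toReal := by
    rw [ENNReal.toReal_mul]
    simpa using h
  exact (ENNReal.toReal_le_toReal (ENNReal.mul_ne_top (by norm_num) hx) hy).mp h1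

/-- The ratio of the two `Z` for one `θ`, for all large `H`. -/
theorem FIN_ratio (hZBU : ZBU_stmt) (hRAT : RAT_stmt) (T M : ℕ) (m s : ℕ → ℕ) (e : ℕ → ℕ)
    (c C : ℕ → ℝ) (t : ℝ) (ht : 0 < t) (hM2 : 2 ≤ M) (hsM : ∀ i < T, (s i + 1) ^ 2 ≤ M)
    (hc : ∀ v, 0 < c v) (hC : ∀ v, 0 < C v)
    (hL : ∀ i < T, ∀ k : ℕ, ∃ H₀ : ℕ, ∀ H : ℕ, H₀ ≤ H →
      ∀ X Y : List Pat, Adm M X → Adm M Y → tl X ≤ k → tl Y ≤ k →
      ENNReal.ofReal (1 + c (s i) * t ^ e (s i)) * Z H (den t H) (X ++ Blk (s i) false ++ Y) ≤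
        Z H (den t H) (X ++ Blk (s i) true ++ Y))
    (hU : ∀ i < T, ∀ (H : ℕ) (X Y : List Pat), M ≤ H → Adm M X → Adm M Y →
      Z H (den t H) (X ++ Blk (s i) true ++ Y) ≤
        ENNReal.ofReal (1 + C (s i) * t ^ (s i + 1)) *
          Z H (den t H) (X ++ Blk (s i) false ++ Y))
    (j : ℕ) (hj : j < T)
    (hmul : 4 * ∏ i ∈ (Finset.range T).erase j, (1 + C (s i) * t ^ (s i + 1)) ^ m i ≤
      (1 + c (s j) * t ^ e (s j)) ^ m j) :
    ∃ H₀ : ℕ, M ≤ H₀ ∧ ∀ H : ℕ, H₀ ≤ H →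
      (Even j → 4 * Z H (den t H) (Lst (flp (LT T m s))) ≤ Z H (den t H) (Lst (LT T m s))) ∧
      (¬ Even j → 4 * Z H (den t H) (Lst (LT T m s)) ≤
        Z H (den t H) (Lst (flp (LT T m s)))) := by
  set k := tl (Lst (LT T m s)) with hk
  have hL' : ∀ i, ∃ H₀ : ℕ, i < T → ∀ H : ℕ, H₀ ≤ H →
      ∀ X Y : List Pat, Adm M X → Adm M Y → tl X ≤ k → tl Y ≤ k →
      ENNReal.ofReal (1 + c (s i) * t ^ e (s i)) * Z H (den t H) (X ++ Blk (s i) false ++ Y) ≤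
        Z H (den t H) (X ++ Blk (s i) true ++ Y) := by
    intro i
    by_cases hi : i < T
    · obtain ⟨H₀, hH₀⟩ := hL i hi k
      exact ⟨H₀, fun _ => hH₀⟩
    · exact ⟨0, fun h => absurd h hi⟩
  choose H1 hH1 using hL'
  refine ⟨(∑ i ∈ Finset.range T, H1 i) + M, by omega, fun H hH => ?_⟩
  have hH1' : 1 ≤ H := by omega
  have hfin : ∀ X, Z H (den t H) X ≠ ⊤ := fun X =>
    ne_top_of_le_ne_top ENNReal.one_ne_top (hZBU.2.2 H (den t H) X hH1')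
  have key := hRAT T M k j m s (fun X => (Z H (den t H) X).toReal)
    (fun v => c v * t ^ e v) (fun v => C v * t ^ (v + 1)) hM2 hsM
    (fun X => ENNReal.toReal_nonneg)
    (fun v => ⟨by have := hc v; positivity, by have := hC v; positivity⟩)
    (fun i hi X Y hX hY hkX hkY => by
      have h1 := hH1 i hi H ((FIN_sum T H1 i hi).trans (by omega)) X Y hX hY hkX hkY
      have h2 := hU i hi H X Y (by omega) hX hY
      refine ⟨FIN_low ?_ (hfin _) h1, FIN_upp ?_ (hfin _) h2⟩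
      · have := hc (s i); positivity
      · have := hC (s i); positivity)
    (le_of_eq hk.symm) hj hmul
  exact ⟨fun h => FIN_four (hfin _) (hfin _) (key.1 h),
    fun h => FIN_four (hfin _) (hfin _) (key.2 h)⟩

theorem FIN (hRTL : RTL_stmt) (hRTU : RTU_stmt) (hZLB : ZLB_stmt) (hZBU : ZBU_stmt)
    (hFLT : FLT_stmt) (hDIF : DIF_stmt) (hRAT : RAT_stmt) (hLTF : LTF_stmt) (hPAR : PAR_stmt)
    (hMUL : MUL_stmt) : FIN_stmt := by
  intro T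
  rcases Nat.eq_zero_or_pos T with rfl | hT
  · refine ⟨[], [], fun _ => 0, rfl, ?_, ?_⟩
    · intro i hi; omega
    · intro j hj; omega
  choose e he using hRTL
  let s : ℕ → ℕ := fun i => Nat.rec 0 (fun _ v => v + e v + 1) i
  have hs : ∀ i, s (i + 1) = s i + e (s i) + 1 := fun i => rfl
  have hsm : StrictMono s := strictMono_nat_of_lt_succ fun i => by rw [hs]; omega
  have hse : ∀ i j, j < i → e (s j) ≤ s i := by
    intro i j hji
    have h1 : s (j + 1) ≤ s i := hsm.monotone (Nat.succ_le_of_lt hji)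
    rw [hs] at h1; omega
  clear_value s
  obtain ⟨M, hMdef⟩ : ∃ M, M = (s T + 2) ^ 2 := ⟨_, rfl⟩
  have hM2 : 2 ≤ M := by
    rw [hMdef]
    calc 2 ≤ 2 ^ 2 := by norm_num
      _ ≤ (s T + 2) ^ 2 := Nat.pow_le_pow_left (by omega) 2
  have hsM : ∀ i < T, (s i + 1) ^ 2 ≤ M := by
    intro i hi
    have h1 : s i ≤ s T := hsm.monotone hi.le
    rw [hMdef]
    exact Nat.pow_le_pow_left (by omega) 2
  -- constants
  have hcon : ∀ v : ℕ, ∃ c C θa : ℝ, 0 < c ∧ c ≤ 1 ∧ 0 < C ∧ 0 < θa ∧ θa ≤ 1 ∧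
      ((v + 1) ^ 2 ≤ M →
        (∀ θ : ℝ, 0 < θ → θ ≤ θa → ∀ k : ℕ, ∃ H₀ : ℕ, ∀ H : ℕ, H₀ ≤ H →
          ∀ X Y : List Pat, Adm M X → Adm M Y → tl X ≤ k → tl Y ≤ k →
          ENNReal.ofReal (1 + c * θ ^ e v) * Z H (den θ H) (X ++ Blk v false ++ Y) ≤
            Z H (den θ H) (X ++ Blk v true ++ Y)) ∧
        (∀ (θ : ℝ) (H : ℕ) (X Y : List Pat), 0 < θ → θ ≤ θa → M ≤ H → Adm M X → Adm M Y →
          Z H (den θ H) (X ++ Blk v true ++ Y) ≤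
            ENNReal.ofReal (1 + C * θ ^ (v + 1)) * Z H (den θ H) (X ++ Blk v false ++ Y))) := by
    intro v
    by_cases hv : (v + 1) ^ 2 ≤ M
    · obtain ⟨c, θ1, hc, hc1, hθ1, hθ11, h1⟩ := he v M hM2 hv
      obtain ⟨C, θ2, hC, hθ2, hθ21, h2⟩ := hRTU v M hM2 hv
      refine ⟨c, C, min θ1 θ2, hc, hc1, hC, lt_min hθ1 hθ2, (min_le_left _ _).trans hθ11,
        fun _ => ⟨fun θ hθ hθm => h1 θ hθ (hθm.trans (min_le_left _ _)),
          fun θ H X Y hθ hθm => h2 θ H X Y hθ (hθm.trans (min_le_right _ _))⟩⟩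
    · exact ⟨1, 1, 1, one_pos, le_refl _, one_pos, one_pos, le_refl _, fun h => absurd h hv⟩
  choose c C θa hc hc1 hC hθa hθa1 hcC using hcon
  obtain ⟨c₀, c₁, θz, hc₀, hc₁, hθz, hθz1, hZ⟩ := hZLB M (by omega)
  obtain ⟨K, hK1, hK⟩ := hDIF c₀ c₁ hc₀ hc₁
  obtain ⟨θm, hθm, hθm1, hθmi⟩ := FIN_min T (fun i => θa (s i)) (fun i => hθa _)
  obtain ⟨θ₀, hθ₀def⟩ : ∃ θ₀, θ₀ = min θm θz := ⟨_, rfl⟩
  have hθ₀ : 0 < θ₀ := by rw [hθ₀def]; exact lt_min hθm hθz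
  have hθ₀1 : θ₀ ≤ 1 := by rw [hθ₀def]; exact (min_le_left _ _).trans hθm1
  have hK0 : 0 < K := by linarith
  obtain ⟨θ, μ, hθ, hμ, hκ, hsum⟩ := hPAR T s (fun i => e (s i)) (fun i => c (s i))
    (fun i => C (s i)) (1 / (2 * K ^ 2)) θ₀ hse (fun i => ⟨hc _, hC _⟩) (by positivity)
    (by
      rw [div_le_one (by positivity)]
      nlinarith) hθ₀ hθ₀1
  have hθ1 : ∀ j < T, θ j ≤ 1 := fun j hj => (hθ j hj).2.trans hθ₀1
  have hk₀ : ∀ j, ∃ k₀ : ℕ, j < T → ∀ k : ℕ, k₀ ≤ k → ∀ (l : ℕ) (σ : Perm (Fin k))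
      (τ : Perm (Fin l)),
      (∃ H₀ : ℕ, ∀ H : ℕ, H₀ ≤ H →
        ENNReal.ofReal (c₁ * (c₀ * θ j) ^ k) ≤ Zp H (den (θ j) H) σ ∧
        4 * Zp H (den (θ j) H) τ ≤ Zp H (den (θ j) H) σ) →
      ∃ n ∈ Win K (θ j) k, avCount n σ < avCount n τ := by
    intro j
    by_cases hj : j < T
    · obtain ⟨k₀, h⟩ := hK (θ j) (hθ j hj).1 (hθ1 j hj)
      exact ⟨k₀, fun _ => h⟩
    · exact ⟨0, fun h => absurd h hj⟩
  choose k₀ hk₀ using hk₀
  have hN₀ : ∀ j, ∃ N₀ : ℕ, j < T → ∀ N : ℕ, N₀ ≤ N →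
      4 * ∏ i ∈ (Finset.range T).erase j,
        (1 + C (s i) * θ j ^ (s i + 1)) ^ ⌈μ i * (N : ℝ)⌉₊ ≤
      (1 + c (s j) * θ j ^ e (s j)) ^ ⌈μ j * (N : ℝ)⌉₊ := by
    intro j
    by_cases hj : j < T
    · have hθj := (hθ j hj).1
      obtain ⟨N₀, h⟩ := hMUL T j μ (fun i => C (s i) * θ j ^ (s i + 1))
        (c (s j) * θ j ^ e (s j)) hj
        (fun i hi => ⟨hμ i hi, by have := hC (s i); positivity⟩)
        (by have := hc (s j); positivity)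
        (by
          have h1 : θ j ^ e (s j) ≤ 1 := pow_le_one₀ hθj.le (hθ1 j hj)
          have h2 := hc (s j)
          have h3 := hc1 (s j)
          have h4 : 0 ≤ θ j ^ e (s j) := by positivity
          nlinarith)
        (hsum j hj)
      exact ⟨N₀, fun _ => h⟩
    · exact ⟨0, fun h => absurd h hj⟩
  choose N₀ hN₀ using hN₀
  have hμ0 := hμ 0 hT
  obtain ⟨N, hNdef⟩ : ∃ N : ℕ, N = (∑ j ∈ Finset.range T, N₀ j) +
      ⌈(((∑ j ∈ Finset.range T, k₀ j : ℕ) : ℝ) + 1) / μ 0⌉₊ := ⟨_, rfl⟩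
  have hN1 : ∀ j < T, N₀ j ≤ N := fun j hj => by
    rw [hNdef]; exact (FIN_sum T N₀ j hj).trans (Nat.le_add_right _ _)
  have hN2 : ((∑ j ∈ Finset.range T, k₀ j : ℕ) : ℝ) + 1 ≤ μ 0 * (N : ℝ) := by
    have h1 : (((∑ j ∈ Finset.range T, k₀ j : ℕ) : ℝ) + 1) / μ 0 ≤ (N : ℝ) := by
      refine (Nat.le_ceil _).trans ?_
      exact_mod_cast (by rw [hNdef]; exact Nat.le_add_left _ _ :
        ⌈(((∑ j ∈ Finset.range T, k₀ j : ℕ) : ℝ) + 1) / μ 0⌉₊ ≤ N)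
    rw [div_le_iff₀ hμ0] at h1
    linarith
  obtain ⟨m, hm⟩ : ∃ m : ℕ → ℕ, ∀ i, m i = ⌈μ i * (N : ℝ)⌉₊ := ⟨fun i => _, fun i => rfl⟩
  have hm0 : (∑ j ∈ Finset.range T, k₀ j) + 1 ≤ m 0 := by
    have h1 : (((∑ j ∈ Finset.range T, k₀ j) + 1 : ℕ) : ℝ) ≤ (m 0 : ℝ) := by
      rw [hm 0]
      push_cast at hN2 ⊢
      exact hN2.trans (Nat.le_ceil _)
    exact_mod_cast h1
  obtain ⟨hA, hB, hAB, hmA, hne⟩ := hLTF T M m s hM2 hsM hT
  obtain ⟨hAne, hBne⟩ := hne (by omega)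
  set A := Lst (LT T m s) with hAdef
  set B := Lst (flp (LT T m s)) with hBdef
  have hkA : ∀ j < T, k₀ j ≤ tl A := fun j hj => by
    have := FIN_sum T k₀ j hj
    omega
  -- for every type one length
  have hmain : ∀ j, ∃ n : ℕ, j < T → n ∈ Win K (θ j) (tl A) ∧
      (Even j → avCount n (flat A).2 < avCount n (flat B).2) ∧
      (¬ Even j → avCount n (flat B).2 < avCount n (flat A).2) := by
    intro j
    by_cases hj : j < T
    swap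
    · exact ⟨0, fun h => absurd h hj⟩
    have hθj := (hθ j hj).1
    have hθja : ∀ i < T, θ j ≤ θa (s i) := fun i hi =>
      (hθ j hj).2.trans (by rw [hθ₀def]; exact (min_le_left _ _).trans (hθmi i hi))
    have hθjz : θ j ≤ θz := (hθ j hj).2.trans (by rw [hθ₀def]; exact min_le_right _ _)
    obtain ⟨H₀, hMH₀, hH₀⟩ := FIN_ratio hZBU hRAT T M m s e c C (θ j) hθj hM2 hsM hc hC
      (fun i hi k => (hcC (s i) (hsM i hi)).1 (θ j) hθj (hθja i hi) k)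
      (fun i hi H X Y hMH hX hY => (hcC (s i) (hsM i hi)).2 (θ j) H X Y hθj (hθja i hi) hMH hX hY)
      j hj (by
        have := hN₀ j hj N (hN1 j hj)
        simpa only [hm] using this)
    have hlow : ∀ (X : List Pat) (H : ℕ), H₀ ≤ H → Adm M X → X ≠ [] →
        ENNReal.ofReal (c₁ * (c₀ * θ j) ^ (flat X).1) ≤ Zp H (den (θ j) H) (flat X).2 := by
      intro X H hH hX hXne
      rw [← hZBU.1, hFLT.2 X]
      exact hZ (θ j) H X hθj hθjz (by omega) hX hXne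
    by_cases hev : Even j
    · obtain ⟨n, hn, hlt⟩ := hk₀ j hj (flat A).1 (by rw [hFLT.2 A]; exact hkA j hj) (flat B).1
        (flat A).2 (flat B).2 ⟨H₀, fun H hH => ⟨hlow A H hH hA hAne, by
          rw [← hZBU.1, ← hZBU.1]; exact (hH₀ H hH).1 hev⟩⟩
      rw [hFLT.2 A] at hn
      exact ⟨n, fun _ => ⟨hn, fun _ => hlt, fun h => absurd hev h⟩⟩
    · obtain ⟨n, hn, hlt⟩ := hk₀ j hj (flat B).1 (by rw [hFLT.2 B, hAB]; exact hkA j hj)
        (flat A).1 (flat B).2 (flat A).2 ⟨H₀, fun H hH => ⟨hlow B H hH hB hBne, by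
          rw [← hZBU.1, ← hZBU.1]; exact (hH₀ H hH).2 hev⟩⟩
      rw [hFLT.2 B, hAB] at hn
      exact ⟨n, fun _ => ⟨hn, fun h => absurd h hev, fun _ => hlt⟩⟩
  choose n hn using hmain
  refine ⟨A, B, n, hAB.symm, fun i hi => ?_, fun j hj => (hn j hj).2⟩
  have h1 := (hn i (by omega)).1.2
  have h2 := (hn (i + 1) hi).1.1
  have hki : (1 : ℝ) ≤ (tl A : ℝ) := by
    have : 1 ≤ tl A := by omega
    exact_mod_cast this
  have h3 := hκ i hi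
  have h4 := (hθ (i + 1) hi).1
  have h5 : K * θ i * (tl A : ℝ) ^ 2 ≤ θ (i + 1) * (tl A : ℝ) ^ 2 / (2 * K) := by
    have h6 : K * θ i ≤ θ (i + 1) / (2 * K) := by
      calc K * θ i ≤ K * (1 / (2 * K ^ 2) * θ (i + 1)) := by gcongr
        _ = θ (i + 1) / (2 * K) := by field_simp
    calc K * θ i * (tl A : ℝ) ^ 2 ≤ θ (i + 1) / (2 * K) * (tl A : ℝ) ^ 2 := by gcongr
      _ = θ (i + 1) * (tl A : ℝ) ^ 2 / (2 * K) := by ring
  have h7 : θ (i + 1) * (tl A : ℝ) ^ 2 / (2 * K) < θ (i + 1) * (tl A : ℝ) ^ 2 / K := by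
    have h8 : 0 < θ (i + 1) * (tl A : ℝ) ^ 2 := by positivity
    rw [div_lt_div_iff₀ (by positivity) hK0]
    nlinarith
  have h9 : ((n i : ℕ) : ℝ) < (n (i + 1) : ℝ) := by
    have h1' : ((n i : ℕ) : ℝ) ≤ K * θ i * (tl A : ℝ) ^ 2 := h1
    have h2' : θ (i + 1) * (tl A : ℝ) ^ 2 / K ≤ ((n (i + 1) : ℕ) : ℝ) := h2
    linarith
  exact_mod_cast h9

end Pool.Agent.MSW
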