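import Pool.Agent.helper47.MSW.SpecA
import Pool.Agent.helper47.MSW.SpecB

/-!
# MSW RC0: upper bound for one step of the recursion
-/

set_option autoImplicit false

namespace Pool.Agent.MSW

open Equiv Finset Function MeasureTheory Pool.Agent.helper48.PP
open Pool.Agent.DSW (Pr Has GP wt)
open scoped ENNReal Classical

theorem RC0_den (H : ℕ) (θ : ℝ) (hH : 1 ≤ H) (h0 : 0 ≤ θ) (h1 : θ ≤ 1) :
    0 ≤ den θ H ∧ den θ H ≤ 1 := by
  have hH' : (1 : ℝ) ≤ (H : ℝ) := by exact_mod_cast hH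
  have h2 : (1 : ℝ) ≤ (H : ℝ) ^ 2 := one_le_pow₀ hH'
  unfold den
  refine ⟨by positivity, ?_⟩
  rw [div_le_one (by linarith)]
  linarith

theorem RC0_dep (F : Finset Pt) : Dep F {ω | ∀ c ∈ F, ω c = true} := by
  intro ω ω' h
  exact forall₂_congr fun c hc => by rw [h c hc]

theorem RC0 (hCPA : CPA_stmt) (hHMN : HMN_stmt) (hIND : IND_stmt) (hONE : ONE_stmt)
    (hSBD : SBD_stmt) (hGEW : GEW_stmt) : RC0_stmt := by
  intro H θ X b hH hθ0 hθ1
  obtain ⟨hC1, hC2, hC3, hC4, hC5, hC6, hC7⟩ := hCPA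
  obtain ⟨hM1, hM2, hM3, hM4, hM5, hM6, hM7, hM8⟩ := hHMN
  obtain ⟨⟨hta1, hta0⟩, -, -, -, -, -⟩ := hGEW H hH
  obtain ⟨hp0, hp1⟩ := RC0_den H θ hH hθ0 hθ1
  set p := den θ H with hp
  set P : ℝ≥0∞ := ENNReal.ofReal p with hP
  -- the probability of one configuration
  have hprob : ∀ (q : Pt) (C : Cp (b.1 + 1)), isC C → geP q C →
      Pm p ({ω | mnU X ω q} ∩ {ω | ∀ c ∈ cls b.2 C, ω c = true}) =
        Pm p {ω | mnU X ω q} * P ^ (b.1 + 1) := by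
    intro q C hC hge
    rw [hIND p (box 0 q) (cls b.2 C) _ _ hp0 hp1 (hM3 X q) (RC0_dep _) ?_, hONE p _ hp0 hp1,
      hC1 _ _ _ hC]
    rw [Finset.disjoint_left]
    intro c hc1 hc2
    have h1 := (mem_box.mp hc1).2
    have h2 := (mem_box.mp (hC4 b.1 b.2 C q c hC hge hc2)).1
    omega
  -- union bound
  have hunion : ∀ z : Pt, Pm p {ω | mnU (X ++ [b]) ω z} ≤
      ∑' qC : Pt × Cp (b.1 + 1), if (isC qC.2 ∧ geP qC.1 qC.2) ∧ tp qC.2 = z then
        Pm p {ω | mnU X ω qC.1} * P ^ (b.1 + 1) else 0 := by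
    intro z
    have hsub : {ω | mnU (X ++ [b]) ω z} ⊆ ⋃ qC : Pt × Cp (b.1 + 1),
        if (isC qC.2 ∧ geP qC.1 qC.2) ∧ tp qC.2 = z then
          ({ω | mnU X ω qC.1} ∩ {ω | ∀ c ∈ cls b.2 qC.2, ω c = true} : Set Om) else ∅ := by
      intro ω hω
      obtain ⟨q, C, hq, hC, hge, hcl, htp⟩ := hC5 X b ω z hω
      rw [Set.mem_iUnion]
      refine ⟨(q, C), ?_⟩
      rw [if_pos ⟨⟨hC, hge⟩, htp⟩]
      exact ⟨hq, hcl⟩
    refine (measure_mono hsub).trans ((measure_iUnion_le _).trans ?_)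
    refine ENNReal.tsum_le_tsum fun qC => ?_
    by_cases h : (isC qC.2 ∧ geP qC.1 qC.2) ∧ tp qC.2 = z
    · rw [if_pos h, if_pos h, hprob qC.1 qC.2 h.1.1 h.1.2]
    · rw [if_neg h, if_neg h, measure_empty]
  -- summation
  calc A1 H p (X ++ [b]) = ∑' z : Pt, ta H ^ (2 * nm z) * Pm p {ω | mnU (X ++ [b]) ω z} := rfl
    _ ≤ ∑' z : Pt, ta H ^ (2 * nm z) * ∑' qC : Pt × Cp (b.1 + 1),
        (if (isC qC.2 ∧ geP qC.1 qC.2) ∧ tp qC.2 = z then
          Pm p {ω | mnU X ω qC.1} * P ^ (b.1 + 1) else 0) :=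
        ENNReal.tsum_le_tsum fun z => mul_le_mul_right (hunion z) _
    _ = ∑' z : Pt, ∑' qC : Pt × Cp (b.1 + 1), ta H ^ (2 * nm z) *
        (if (isC qC.2 ∧ geP qC.1 qC.2) ∧ tp qC.2 = z then
          Pm p {ω | mnU X ω qC.1} * P ^ (b.1 + 1) else 0) :=
        tsum_congr fun z => by rw [ENNReal.tsum_mul_left]
    _ = ∑' qC : Pt × Cp (b.1 + 1), ∑' z : Pt, ta H ^ (2 * nm z) *
        (if (isC qC.2 ∧ geP qC.1 qC.2) ∧ tp qC.2 = z then
          Pm p {ω | mnU X ω qC.1} * P ^ (b.1 + 1) else 0) := ENNReal.tsum_comm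
    _ ≤ ∑' qC : Pt × Cp (b.1 + 1), Pm p {ω | mnU X ω qC.1} * (ta H ^ nm qC.1 *
        (if isC qC.2 ∧ geP qC.1 qC.2 then P ^ (b.1 + 1) * ta H ^ nm (tp qC.2) else 0)) := by
        refine ENNReal.tsum_le_tsum fun qC => ?_
        rw [tsum_eq_single (tp qC.2) fun z hz => by
          rw [if_neg fun h => hz h.2.symm, mul_zero]]
        by_cases h : isC qC.2 ∧ geP qC.1 qC.2
        · rw [if_pos ⟨h, rfl⟩, if_pos h]
          have hle : nm qC.1 ≤ nm (tp qC.2) := by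
            have h1 := (h.2 (Fin.last b.1)).1
            have h2 := (h.2 (Fin.last b.1)).2
            unfold nm tp
            simp only
            omega
          have h3 : ta H ^ (2 * nm (tp qC.2)) ≤ ta H ^ nm qC.1 * ta H ^ nm (tp qC.2) := by
            rw [two_mul, pow_add]
            exact mul_le_mul_left (pow_le_pow_right_of_le_one' hta1 hle) _
          calc ta H ^ (2 * nm (tp qC.2)) * (Pm p {ω | mnU X ω qC.1} * P ^ (b.1 + 1)) ≤
              (ta H ^ nm qC.1 * ta H ^ nm (tp qC.2)) *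
                (Pm p {ω | mnU X ω qC.1} * P ^ (b.1 + 1)) := mul_le_mul_left h3 _
            _ = _ := by ring
        · rw [if_neg fun h' => h h'.1, if_neg h]
          simp
    _ = ∑' q : Pt, ∑' C : Cp (b.1 + 1), Pm p {ω | mnU X ω q} * (ta H ^ nm q *
        (if isC C ∧ geP q C then P ^ (b.1 + 1) * ta H ^ nm (tp C) else 0)) :=
        ENNReal.tsum_prod (f := fun (q : Pt) (C : Cp (b.1 + 1)) => Pm p {ω | mnU X ω q} *
          (ta H ^ nm q * (if isC C ∧ geP q C then P ^ (b.1 + 1) * ta H ^ nm (tp C) else 0)))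
    _ = ∑' q : Pt, Pm p {ω | mnU X ω q} * (ta H ^ nm q * ∑' C : Cp (b.1 + 1),
        (if isC C ∧ geP q C then P ^ (b.1 + 1) * ta H ^ nm (tp C) else 0)) :=
        tsum_congr fun q => by rw [ENNReal.tsum_mul_left, ENNReal.tsum_mul_left]
    _ ≤ ∑' q : Pt, Pm p {ω | mnU X ω q} * (ta H ^ nm q * (ta H ^ nm q *
        ENNReal.ofReal ((16 * ((b.1 : ℝ) + 1) ^ 2 * θ) ^ (b.1 + 1)))) :=
        ENNReal.tsum_le_tsum fun q => mul_le_mul_right (mul_le_mul_right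
          (hSBD b.1 H θ q hH hθ0) _) _
    _ = ∑' q : Pt, ENNReal.ofReal ((16 * ((b.1 : ℝ) + 1) ^ 2 * θ) ^ (b.1 + 1)) *
        (ta H ^ (2 * nm q) * Pm p {ω | mnU X ω q}) :=
        tsum_congr fun q => by rw [two_mul, pow_add]; ring
    _ = ENNReal.ofReal ((16 * ((b.1 : ℝ) + 1) ^ 2 * θ) ^ (b.1 + 1)) * A1 H p X := by
        rw [ENNReal.tsum_mul_left]; rfl

end Pool.Agent.MSW
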