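import Pool.Agent.helper16.MSW.GAP
import Pool.Agent.helper16.MSW.LOB
import Pool.Agent.helper16.MSW.STR
import Pool.Agent.helper16.MSW.TOP
import Pool.Agent.helper17.MSW.TSM
import Pool.Agent.helper20.MSW.WLO
import Pool.Agent.helper23.MSW.DCS
import Pool.Agent.helper23.MSW.DIF
import Pool.Agent.helper24.MSW.HMN
import Pool.Agent.helper24.MSW.WH1
import Pool.Agent.helper25.MSW.CNT
import Pool.Agent.helper3.MSW.PBD
import Pool.Agent.helper3.MSW.TSE
import Pool.Agent.helper31.MSW.GPP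
import Pool.Agent.helper35.MSW.IN1
import Pool.Agent.helper39.MSW.ZLO
import Pool.Agent.helper41.MSW.GST
import Pool.Agent.helper45.MSW.IN2
import Pool.Agent.helper45.MSW.QLB
import Pool.Agent.helper47.MSW.CPA
import Pool.Agent.helper47.MSW.FIN
import Pool.Agent.helper47.MSW.RC0
import Pool.Agent.helper48.MSW.ZBU
import Pool.Agent.helper50.MSW.INU
import Pool.Agent.helper50.MSW.LTF
import Pool.Agent.helper51.MSW.PTD
import Pool.Agent.helper51.MSW.SQS
import Pool.Agent.helper52.MSW.HYB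
import Pool.Agent.helper53.MSW.HLA
import Pool.Agent.helper53.MSW.RFA
import Pool.Agent.helper55.MSW.DEC
import Pool.Agent.helper59.MSW.GEM
import Pool.Agent.helper59.MSW.GEW
import Pool.Agent.helper59.MSW.GPE
import Pool.Agent.helper59.MSW.MUL
import Pool.Agent.helper59.MSW.PAR
import Pool.Agent.helper60.MSW.RCZ
import Pool.Agent.helper63.MSW.INS
import Pool.Agent.helper63.MSW.RC1
import Pool.Agent.helper63.MSW.RC2
import Pool.Agent.helper63.MSW.WIN
import Pool.Agent.helper64.MSW.RAT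
import Pool.Agent.helper64.MSW.RFB
import Pool.Agent.helper67.MSW.BX2
import Pool.Agent.helper67.MSW.RTL
import Pool.Agent.helper68.MSW.IND
import Pool.Agent.helper68.MSW.MUM
import Pool.Agent.helper68.MSW.ONE
import Pool.Agent.helper68.MSW.TRN
import Pool.Agent.helper69.MSW.PRG
import Pool.Agent.helper69.MSW.SBD
import Pool.Agent.helper71.MSW.FLT
import Pool.Agent.helper74.MSW.WH2
import Pool.Agent.helper74.MSW.ZPR
import Pool.Agent.helper76.MSW.SWL
import Pool.Agent.helper77.MSW.ZLB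
import Pool.Agent.helper79.MSW.LNW
import Pool.Agent.helper80.MSW.QDP
import Pool.Agent.helper80.MSW.QIN
import Pool.Agent.helper80.MSW.QSM
import Pool.Agent.helper82.MSW.SPT
import Pool.Agent.helper84.MSW.RTU
import Pool.Agent.helper90.MSW.TRL
import Pool.Agent.helper97.MSW.ASC
import Pool.Agent.helper98.MSW.SWU
import Pool.Agent.helper54.DSW.GPC
import Pool.Agent.helper23.DSW.GPB
import Pool.Agent.helper6.DSW.PRL

/-!
# Patterns of the same length that switch places many times: assembly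
-/

set_option autoImplicit false

namespace Pool.Agent.MSW

theorem fGPC : Pool.Agent.DSW.GPC_stmt := Pool.Agent.DSW.GPC
theorem fGPB : Pool.Agent.DSW.GPB_stmt := Pool.Agent.DSW.GPB Pool.Agent.DSW.PRL
theorem fMUM : MUM_stmt := MUM
theorem fIND : IND_stmt := IND fMUM
theorem fONE : ONE_stmt := ONE fMUM
theorem fTRN : TRN_stmt := TRN fMUM
theorem fHLA : HLA_stmt := HLA
theorem fHMN : HMN_stmt := HMN fHLA
theorem fRFA : RFA_stmt := RFA fHLA
theorem fRFB : RFB_stmt := RFB fHLA fHMN fRFA fTRN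
theorem fTRL : TRL_stmt := TRL fHLA fTRN
theorem fFLT : FLT_stmt := FLT fHLA
theorem fASC : ASC_stmt := ASC
theorem fCPA : CPA_stmt := CPA fHLA fHMN
theorem fCNT : CNT_stmt := CNT fHLA fONE
theorem fLOB : LOB_stmt := LOB fIND fMUM fONE
theorem fGEM : GEM_stmt := GEM
theorem fGEW : GEW_stmt := GEW fGEM
theorem fGPE : GPE_stmt := GPE fMUM fGPB fGEM fGEW
theorem fPRG : PRG_stmt := PRG
theorem fSBD : SBD_stmt := SBD fPRG fGEW
theorem fPBD : PBD_stmt := PBD fPRG fGEW fSBD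
theorem fIN1 : IN1_stmt := IN1 fCPA
theorem fRCZ : RCZ_stmt := RCZ
theorem fINS : INS_stmt := INS fRCZ fCPA
theorem fRC0 : RC0_stmt := RC0 fCPA fHMN fIND fONE fSBD fGEW
theorem fRC2 : RC2_stmt := RC2 fCPA fHMN fIND fONE fPBD
theorem fRC1 : RC1_stmt := RC1 fMUM fIND fHLA fHMN fTRL fLOB fGEW
theorem fPTD : PTD_stmt := PTD fRC0 fRC1 fRC2 fIN1 fHMN
theorem fINU : INU_stmt := INU fPTD fRC2 fINS
theorem fSPT : SPT_stmt := SPT fHLA fHMN
theorem fQDP : QDP_stmt := QDP fHLA fHMN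
theorem fIN2 : IN2_stmt := IN2 fIND fHMN
theorem fTSM : TSM_stmt := TSM fGEW
theorem fTSE : TSE_stmt := TSE fGEW
theorem fQSM : QSM_stmt := QSM fMUM fIND fHLA fSPT fQDP
theorem fQLB : QLB_stmt := QLB fIN2 fHMN
theorem fSQS : SQS_stmt := SQS fQLB fTSM fTSE fRFB fGEW fPTD
theorem fZPR : ZPR_stmt := ZPR fIND fHLA fHMN fSPT fTRL fRFB fTSM
theorem fZBU : ZBU_stmt := ZBU fFLT fCNT fGEM fGEW
theorem fZLO : ZLO_stmt := ZLO fSQS fQSM fHLA fTRL fFLT fLOB
theorem fZLB : ZLB_stmt := ZLB fZLO fPTD fHMN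
theorem fBX2 : BX2_stmt := BX2 fHLA fTRN fTRL
theorem fSWU : SWU_stmt := SWU fHLA fHMN fSPT fQSM fIN2 fBX2 fTRL fRFB fTSE fCNT fGEM
theorem fRTU : RTU_stmt := RTU fSWU fINU fZLO fRCZ fPTD
theorem fGST : GST_stmt := GST fHLA fHMN
theorem fDCS : DCS_stmt := DCS
theorem fDEC : DEC_stmt := DEC
theorem fGPP : GPP_stmt := GPP fMUM fHLA fHMN fSPT fGST fDCS fDEC
theorem fQIN : QIN_stmt := QIN fHLA fHMN fGST
theorem fSTR : STR_stmt := STR fASC
theorem fGAP : GAP_stmt := GAP fMUM fFLT fSTR fGPC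
theorem fSWL : SWL_stmt := SWL fHLA fQDP fQSM fSPT fTRL fGPP fQIN fGAP fGPE fGEW fSQS
theorem fRTL : RTL_stmt := RTL fSWL fZPR fZBU fPTD
theorem fWLO : WLO_stmt := WLO fMUM
theorem fWH1 : WH1_stmt := WH1 fONE
theorem fWH2 : WH2_stmt := WH2 fCNT fGEM fGEW
theorem fWIN : WIN_stmt := WIN fWLO fWH1 fWH2 fGEW
theorem fLNW : LNW_stmt := LNW fMUM fGPE fGEW fGPC
theorem fDIF : DIF_stmt := DIF fWIN fLNW fGEW
theorem fHYB : HYB_stmt := HYB fRCZ
theorem fRAT : RAT_stmt := RAT fHYB fRCZ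
theorem fLTF : LTF_stmt := LTF fRCZ
theorem fPAR : PAR_stmt := PAR
theorem fMUL : MUL_stmt := MUL
theorem fFIN : FIN_stmt := FIN fRTL fRTU fZLB fZBU fFLT fDIF fRAT fLTF fPAR fMUL
theorem fTOP : TOP_stmt := TOP fFIN fFLT

end Pool.Agent.MSW
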