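import Pool.Agent.helper47.MSW.Defs

/-!
# Project msw, block A: the random field, patterns in boxes, weights

Each row proves one of the statements `XX_stmt`: file `Pool/Agent/<seat>/MSW/XX.lean`,
`import Pool.Agent.helper47.MSW.SpecA`, `namespace Pool.Agent.MSW`, the same open lines as here,
auxiliary lemmas prefixed `XX_`. Other rows only as hypotheses.
-/

set_option autoImplicit false

namespace Pool.Agent.MSW

open Equiv Finset Function MeasureTheory Pool.Agent.helper48.PP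
open Pool.Agent.DSW (Pr Has GP wt)
open scoped ENNReal Classical

noncomputable section

/-! ## The random field -/

/-- `MUM` (medium). `A` is the preimage under the restriction `Om → (F → Bool)` of the set `B` of the
`f` whose extension by `false` is in `A` (by `Dep`). `B` is finite, so measurable. The image of
`Pm p` under the restriction is the finite product measure (`Measure.infinitePi_map_restrict`),
`Pm p A = ∑_(f ∈ B) ∏_(c ∈ F) bern p {f c}` (`Measure.pi_singleton`), `bern p {true} = ofReal p`,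
`bern p {false} = ofReal (1 - p)` (`clip_eq`), and the `f` correspond to the subsets `S` of `F`
(`f c = true` iff `c ∈ S`); the product is `p^|S| (1-p)^(|F| - |S|)`. -/
def MUM_stmt : Prop := ∀ (p : ℝ) (F : Finset Pt) (A : Set Om), 0 ≤ p → p ≤ 1 → Dep F A →
  MeasurableSet A ∧ Pm p A = ENNReal.ofReal (Pr F p fun S => ind S ∈ A)

/-- `IND` (short to medium). Independence. Either Mathlib's independence of the coordinates
(`iIndepFun_infinitePi`, `iIndepFun.indepFun_finset`: the restrictions to disjoint finite sets are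
independent; `A`, `B` are preimages of measurable sets under them, see `MUM`), or `MUM` and
`Pr (F ∪ G) p (A ∧ B) = Pr F p A * Pr G p B` (the subsets of `F ∪ G` are the unions of a subset of `F`
and a subset of `G`). Hypothesis `MUM_stmt`. -/
def IND_stmt : Prop := ∀ (p : ℝ) (F G : Finset Pt) (A B : Set Om), 0 ≤ p → p ≤ 1 → Dep F A →
  Dep G B → Disjoint F G → Pm p (A ∩ B) = Pm p A * Pm p B

/-- `ONE` (short; hypothesis `MUM_stmt`). `MUM` with `A = {ω | ∀ c ∈ F, ω c = true}`: the only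
subset `S` of `F` with `ind S ∈ A` is `F`. -/
def ONE_stmt : Prop := ∀ (p : ℝ) (F : Finset Pt), 0 ≤ p → p ≤ 1 →
  Pm p {ω | ∀ c ∈ F, ω c = true} = ENNReal.ofReal p ^ F.card

/-- `TRN` (short to medium; hypothesis `MUM_stmt`). Transport by `f`, injective on `F`. The event on
the left depends on `F.image f`; by `MUM` both sides are `ofReal (Pr ..)`, and
`Pr (F.image f) p (fun S' => ind S' ∘ f ∈ A) = Pr F p (fun S => ind S ∈ A)` by the bijection
`S ↦ S.image f` (`(ind (S.image f)) ∘ f` and `ind S` agree on `F` as `f` is injective on `F`; use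
`Dep F A`), see `PRL` (5) in `Pool.Agent.helper6.DSW.PRL`. -/
def TRN_stmt : Prop := ∀ (p : ℝ) (F : Finset Pt) (A : Set Om) (f : Pt → Pt), 0 ≤ p → p ≤ 1 →
  Dep F A → Set.InjOn f (F : Set Pt) → Pm p {ω | (fun c => ω (f c)) ∈ A} = Pm p A

/-! ## Patterns in boxes -/

/-- `HLA` (short). Elementary properties of `HP` and `HL`: (1) order, (2) lists (induction on `X`),
(3) monotonicity, (4) dependence on the cells of the box (induction on the list: for
`b :: l` and the intermediate point `m` one has `a ≤ m ≤ z`, so both boxes are in `box a z`),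
(5), (6) monotonicity and dependence for `HP`; (7) one atom. -/
def HLA_stmt : Prop :=
  (∀ (X : List Pat) (ω : Om) (a z : Pt), HL X ω a z → a ≤ z) ∧
  (∀ (X Y : List Pat) (ω : Om) (a z : Pt), HL (X ++ Y) ω a z ↔ ∃ m, HL X ω a m ∧ HL Y ω m z) ∧
  (∀ (X : List Pat) (ω : Om) (a a' z z' : Pt), a' ≤ a → z ≤ z' → HL X ω a z → HL X ω a' z') ∧
  (∀ (X : List Pat) (a z : Pt), Dep (box a z) {ω | HL X ω a z}) ∧
  (∀ (k : ℕ) (τ : Perm (Fin k)) (ω : Om) (a a' z z' : Pt), a' ≤ a → z ≤ z' → HP τ ω a z →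
    HP τ ω a' z') ∧
  (∀ (k : ℕ) (τ : Perm (Fin k)) (a z : Pt), Dep (box a z) {ω | HP τ ω a z}) ∧
  (∀ (b : Pat) (ω : Om) (a z : Pt), HL [b] ω a z ↔ HP b.2 ω a z)

/-- `HMN` (short; hypothesis `HLA_stmt`). Minimal and maximal points. (1) every `z` with
`HL X ω 0 z` is above a minimal one (strong induction on `nm z`, or well-foundedness of `<` on
`ℕ × ℕ`); (2) different minimal points are not comparable; (3) `mnU X ω z` is
`HL X ω 0 z ∧ ∀ z' ≤ z, HL X ω 0 z' → z' = z`, which depends on `box 0 z`; (4)-(7) the same for `mxV`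
(`HL Y ω q w` implies `q ≤ w`; induction on `nm w - nm q`); (8) the empty list. -/
def HMN_stmt : Prop :=
  (∀ (X : List Pat) (ω : Om) (z : Pt), HL X ω 0 z → ∃ z', z' ≤ z ∧ mnU X ω z') ∧
  (∀ (X : List Pat) (ω : Om) (z z' : Pt), mnU X ω z → mnU X ω z' → z ≤ z' → z = z') ∧
  (∀ (X : List Pat) (z : Pt), Dep (box 0 z) {ω | mnU X ω z}) ∧
  (∀ (Y : List Pat) (ω : Om) (q w : Pt), HL Y ω q w → ∃ q', q ≤ q' ∧ mxV Y ω w q') ∧
  (∀ (Y : List Pat) (ω : Om) (w q : Pt), mxV Y ω w q → q ≤ w) ∧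
  (∀ (Y : List Pat) (ω : Om) (w q q' : Pt), mxV Y ω w q → mxV Y ω w q' → q ≤ q' → q = q') ∧
  (∀ (Y : List Pat) (w q : Pt), Dep (box q w) {ω | mxV Y ω w q}) ∧
  (∀ (ω : Om) (z : Pt), mnU [] ω z ↔ z = 0)

/-- `RFA` (medium; hypothesis `HLA_stmt`). Reflection of `[0, w)`. One atom: if `x, y` is a copy of
`b` in the reflected field in `[a, z)`, then `x' j = w.1 - 1 - x (rev j)`,
`y' v = w.2 - 1 - y (rev v)` is a copy in `ω` in `[w - z, w - a)`, because `b.2 (rev j) = rev (b.2 j)`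
(`RC`); the converse in the same way (everything is below `w`, so the truncated subtractions are
true subtractions; the copies have all coordinates `< w`). Induction on the list, `HLA` (2) for
`Y.reverse` (the intermediate point `m` corresponds to `w - m`; `a ≤ m ≤ z ≤ w`). -/
def RFA_stmt : Prop := ∀ (Y : List Pat), (∀ b ∈ Y, RC b) → ∀ (ω : Om) (w a z : Pt), a ≤ z → z ≤ w →
  (HL Y (fun c => ω (rf w c)) a z ↔ HL Y.reverse ω (w - z) (w - a))

/-- `RFB` (short to medium; hypotheses `HLA_stmt`, `HMN_stmt`, `RFA_stmt`, `TRN_stmt`). For `q ≤ w`,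
`mxV Y ω w q` iff `mnU Y.reverse (ω ∘ rf w) (w - q)`: `RFA` for the list `Y.reverse` with `a = 0`,
`z = w - q''` says `HL Y.reverse (ω ∘ rf w) 0 (w - q'') ↔ HL Y ω q'' w`, and the `z' ≤ w - q` are the
`w - q''` with `q ≤ q'' ≤ w`. Then `TRN` with `f = rf w`, injective on
`F = box 0 (w - q) ∪ box 0 (w - q')` (all cells are in `[0, w)`), `HMN` (3). -/
def RFB_stmt : Prop := ∀ (Y : List Pat), (∀ b ∈ Y, RC b) → ∀ (p : ℝ), 0 ≤ p → p ≤ 1 →
  ∀ (w q q' : Pt), q ≤ w → q' ≤ w →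
  Pm p {ω | mxV Y ω w q ∧ mxV Y ω w q'} =
    Pm p {ω | mnU Y.reverse ω (w - q) ∧ mnU Y.reverse ω (w - q')}

/-- `TRL` (short; hypotheses `HLA_stmt`, `TRN_stmt`). Translation: (1) by induction on the list
(the intermediate points are `≥ a + b`, so of the form `a + m`; `Prod` addition is coordinatewise);
(2) `TRN` with the injective map `d ↦ a + d`, `F = box 0 c`. -/
def TRL_stmt : Prop :=
  (∀ (X : List Pat) (ω : Om) (a b c : Pt),
    HL X (fun d => ω (a + d)) b c ↔ HL X ω (a + b) (a + c)) ∧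
  (∀ (X : List Pat) (p : ℝ) (a c : Pt), 0 ≤ p → p ≤ 1 →
    Pm p {ω | HL X ω a (a + c)} = Pm p {ω | HL X ω 0 c})

/-- `FLT` (medium; hypothesis `HLA_stmt`). Lists and direct sums. Induction on the list. Empty list:
`HP` of the empty pattern is `a ≤ z` (`Fin 0`). `b :: l`: (→) if `x₁, y₁` is a copy of `b` in
`[a, m)` and `x₂, y₂` a copy of `flat l` in `[m, z)`, then `Fin.append x₁ x₂`, `Fin.append y₁ y₂` is a
copy of `dsum b.2 (flat l).2` (`dsum_castAdd`, `dsum_natAdd`, `Fin.append_left`,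
`Fin.append_right`). (←) restrict a copy `x, y` to the first `b.1 + 1` indices and to the others;
`m = (x (last of the first part) + 1, y (last of the first part) + 1)`: the first part is in
`[a, m)`, the second in `[m, z)` (strictly increasing), and `m ≤ z`. -/
def FLT_stmt : Prop :=
  (∀ (X : List Pat) (ω : Om) (a z : Pt), HL X ω a z ↔ HP (flat X).2 ω a z) ∧
  (∀ X : List Pat, (flat X).1 = tl X)

/-- `ASC` (short to medium). Associativity of the direct sum (as an equality in the sigma type;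
`Sigma.ext` with `HEq`, or: for `k = l` the casts; e.g. show
`∀ (k l : ℕ) (h : k = l) (σ : Perm (Fin k)) (τ : Perm (Fin l)), (∀ j : Fin k, (σ j : ℕ) = τ (Fin.cast h j)) → (⟨k, σ⟩ : Σ k, Perm (Fin k)) = ⟨l, τ⟩`
by `subst`, then compare values with `Fin.addCases`), the same for `dsum 1 x` with `1 : Perm (Fin 0)`,
and by induction `flat (X ++ Y) = ⟨_, dsum (flat X).2 (flat Y).2⟩`. Consequence: `avCount` of the flat
list of a list `X ++ [b] ++ Y`. -/
def ASC_stmt : Prop :=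
  (∀ X Y : List Pat, flat (X ++ Y) =
    (⟨(flat X).1 + (flat Y).1, dsum (flat X).2 (flat Y).2⟩ : Σ k : ℕ, Perm (Fin k))) ∧
  (∀ (X Y : List Pat) (b : Pat) (n : ℕ), avCount n (flat (X ++ [b] ++ Y)).2 =
    avCount n (dsum (dsum (flat X).2 b.2) (flat Y).2))

/-- `CPA` (short to medium; hypotheses `HLA_stmt`, `HMN_stmt`). Copies. (1) the cells of a copy are
different (`C.1` is injective); (2) a copy `≥ a` with all cells `true` gives `HP τ ω a (tp C)`;
(3) conversely `HP τ ω a z` gives a copy with top `≤ z`; (4) cells and tops: `a ≤ c < tp C` for the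
cells `c`; (5) if `z` is minimal for `X ++ [b]`: `HL (X ++ [b]) ω 0 z` gives `m` with `HL X ω 0 m` and
`HP b.2 ω m z`; take the minimal point `p ≤ m` for `X` and a copy `C` in `[m, z)`; then
`HL (X ++ [b]) ω 0 (tp C)` and `tp C ≤ z`, so `tp C = z`; (6) if `z` is minimal for `X ++ [b]` and `p`
satisfies `HL X ω 0 p`, then `z` is minimal for `b` in `[p, ∞)` (if at all below); (7) both sets of
cells have `w + 1` elements, so they are equal; the last column is the largest first coordinate. -/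
def CPA_stmt : Prop :=
  (∀ (k : ℕ) (τ : Perm (Fin k)) (C : Cp k), isC C → (cls τ C).card = k) ∧
  (∀ (w : ℕ) (τ : Perm (Fin (w + 1))) (C : Cp (w + 1)) (ω : Om) (a : Pt), isC C → geP a C →
    (∀ c ∈ cls τ C, ω c = true) → HP τ ω a (tp C)) ∧
  (∀ (w : ℕ) (τ : Perm (Fin (w + 1))) (ω : Om) (a z : Pt), HP τ ω a z →
    ∃ C : Cp (w + 1), isC C ∧ geP a C ∧ (∀ c ∈ cls τ C, ω c = true) ∧ tp C ≤ z) ∧
  (∀ (w : ℕ) (τ : Perm (Fin (w + 1))) (C : Cp (w + 1)) (a c : Pt), isC C → geP a C →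
    c ∈ cls τ C → c ∈ box a (tp C)) ∧
  (∀ (X : List Pat) (b : Pat) (ω : Om) (z : Pt), mnU (X ++ [b]) ω z →
    ∃ (p : Pt) (C : Cp (b.1 + 1)), mnU X ω p ∧ isC C ∧ geP p C ∧
      (∀ c ∈ cls b.2 C, ω c = true) ∧ tp C = z) ∧
  (∀ (X : List Pat) (b : Pat) (ω : Om) (z p : Pt), mnU (X ++ [b]) ω z → HL X ω 0 p →
    ∀ z', HP b.2 ω p z' → z' ≤ z → z' = z) ∧
  (∀ (w : ℕ) (τ : Perm (Fin (w + 1))) (C C' : Cp (w + 1)), isC C → isC C' →
    cls τ C' ⊆ cls τ C → tp C' = tp C)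

/-- `CNT` (medium; hypotheses `HLA_stmt`, `ONE_stmt`). First moment bound. If `HP τ ω 0 w` then for
some `k`-subsets `I` of `range w.1`, `J` of `range w.2` (the ranges of `x` and `y`), with increasing
enumerations `x = I.orderEmbOfFin`, `y = J.orderEmbOfFin`, all the cells `(x j, y (τ j))` are `true`:
union bound over `(I, J)` (`measure_biUnion_finset_le`), each has probability `p^k` (`ONE`; the
cells are different). -/
def CNT_stmt : Prop := ∀ (k : ℕ) (τ : Perm (Fin k)) (w : Pt) (p : ℝ), 0 ≤ p → p ≤ 1 →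
  Pm p {ω | HP τ ω 0 w} ≤
    ENNReal.ofReal p ^ k * (w.1.choose k : ℝ≥0∞) * (w.2.choose k : ℝ≥0∞)

/-- `LOB` (medium; hypotheses `IND_stmt`, `MUM_stmt`, `ONE_stmt`). Lower bound. Let `h = H / k` (the
integer part, `h ≥ 1`, `k h ≤ H`, `h ≥ H/(2k)`), and for `j : Fin k` let
`B_j = box (j h, τ j h) ((j+1) h, (τ j + 1) h)`. These boxes are disjoint; if each of them contains a
cell `c_j` with `ω c_j = true`, then `x j = (c_j).1`, `y (τ j) = (c_j).2` is a copy of `τ` in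
`[0, (H,H))`. The events are independent (induction on the number of boxes with `IND`), each has
probability `1 - (1-p)^(h^2) ≥ h^2 p / 2 ≥ θ / (8 k^2)`: the probability that a box of `n` cells has no
ones is `(1-p)^n` (`MUM`: only `S = ∅`), and `(1-p)^n ≤ 1 - n p / 2` if `n p ≤ 1` (induction:
`(1-p)(1 - n p/2) = 1 - (n+1)p/2 - p/2 + n p^2/2`; or `exp(-u) ≤ 1 - u/2` for `0 ≤ u ≤ 1`), here
`h^2 p ≤ H^2 p = θ ≤ 1`. -/
def LOB_stmt : Prop := ∀ (k : ℕ) (τ : Perm (Fin k)) (H : ℕ) (θ : ℝ), 1 ≤ k → k ≤ H → 0 < θ →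
  θ ≤ 1 → ENNReal.ofReal ((θ / (8 * (k : ℝ) ^ 2)) ^ k) ≤ Pm (den θ H) {ω | HP τ ω 0 (H, H)}

/-! ## Weights -/

/-- `GEM` (short to medium). `∑ C(j, r) x^j = x^r / (1-x)^(r+1)` for `0 ≤ x < 1`
(`tsum_choose_mul_geometric_of_norm_lt_one`, shift the index by `r`; all terms are nonnegative, so the
sum in `ℝ≥0∞` is the `ofReal` of the real sum). (1) `x = H/(H+1)`:
`∑ wt H j C(j,r) = (1/(H+1)) x^r (H+1)^(r+1) = H^r`. (2) `x = √(H/(H+1)) ≤ 1 - 1/(2(H+1))`
(`√(1-u) ≤ 1 - u/2`): the sum is at most `(2(H+1))^(r+1)`. -/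
def GEM_stmt : Prop := ∀ H r : ℕ, 1 ≤ H →
  (∑' j : ℕ, wt H j * ((j.choose r : ℕ) : ℝ≥0∞) = (H : ℝ≥0∞) ^ r) ∧
  (∑' j : ℕ, ta H ^ j * ((j.choose r : ℕ) : ℝ≥0∞) ≤ (2 * ((H : ℝ≥0∞) + 1)) ^ (r + 1))

/-- `GEW` (short to medium; hypothesis `GEM_stmt`). The weights. (1) `0 < H/(H+1) < 1`; (2)
`wt H i = H^i/(H+1)^(i+1)` and `ta H ^ 2 = ofReal (H/(H+1))`; (3) `ta H ^ (2H) = ofReal ((H/(H+1))^H)`
and `2 ≤ (1+1/H)^H ≤ e ≤ 3` (Bernoulli's inequality; `Real.add_one_le_exp`); (4) with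
`u = 1/(2 m (H+1))` one has `(1-u)^m ≥ 1 - m u = 1 - 1/(2(H+1)) ≥ √(1 - 1/(H+1))` (Bernoulli), and the
geometric series; (5) all weights `wt` sum to one over `ℕ × ℕ` (`GEM` with
`r = 0`; `ENNReal.tsum_prod`, `ENNReal.tsum_mul_left`); (6) the total weight of `[H, 2H)^2` is at least
`1/324`: `wt H j ≥ (H/(H+1))^(2H) / (H+1) ≥ 1/(9 (H+1))` for `j < 2H`, `H/(H+1) ≥ 1/2`. -/
def GEW_stmt : Prop := ∀ H : ℕ, 1 ≤ H →
  (ta H ≤ 1 ∧ ta H ≠ 0) ∧
  (∀ z : Pt, wt H z.1 * wt H z.2 * ((H : ℝ≥0∞) + 1) ^ 2 = ta H ^ (2 * nm z)) ∧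
  (ENNReal.ofReal (1 / 3) ≤ ta H ^ (2 * H) ∧ ta H ^ (2 * H) ≤ ENNReal.ofReal (1 / 2)) ∧
  (∀ m : ℕ, 1 ≤ m → ta H ≤ up m H ^ m ∧ up m H ≤ 1 ∧
    ∑' j : ℕ, up m H ^ j = 2 * (m : ℝ≥0∞) * ((H : ℝ≥0∞) + 1)) ∧
  (∑' w : Pt, wt H w.1 * wt H w.2 = 1) ∧
  (ENNReal.ofReal (1 / 324) ≤ ∑' w : Pt, wt H w.1 * wt H w.2 * (if Jb H w then 1 else 0))

/-- `GPE` (short to medium; hypotheses `MUM_stmt`, `Pool.Agent.DSW.GPB_stmt`, `GEM_stmt`,
`GEW_stmt`). General position. `tr ω 0 w` is the set of ones of `ω` in `range w.1 ×ˢ range w.2`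
(`box 0 w`), so by `MUM` and `GPB`
`Pm p {¬ GP (tr ω 0 w)} ≤ p^2 (w_1 w_2^2 + w_1^2 w_2)`. (1) average over `w`:
`E w_1 w_2^2 = H (2H^2 + H) ≤ 3 H^3` (`j^2 = 2 C(j,2) + j`, `GEM`), total
`≤ (θ/H^2)^2 6 H^3 = 6 θ^2 / H ≤ 6/H`; (2) for `w_1, w_2 < 2H`: `≤ (θ/H^2)^2 16 H^3 ≤ 16/H`. -/
def GPE_stmt : Prop := ∀ (H : ℕ) (θ : ℝ), 1 ≤ H → 0 ≤ θ → θ ≤ 1 →
  (∑' w : Pt, wt H w.1 * wt H w.2 * Pm (den θ H) {ω | ¬ GP (tr ω 0 w)} ≤
    ENNReal.ofReal (6 / H)) ∧
  (∀ s : Pt, Jb H s → Pm (den θ H) {ω | ¬ GP (tr ω 0 s)} ≤ ENNReal.ofReal (16 / H))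

end

end Pool.Agent.MSW
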